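import Pool.Agent.U143.AR.Vir
import Pool.Agent.W353.SN.Big

/-!
# Bounded virtual characters of large alternating and symmetric groups
-/

set_option autoImplicit false
set_option linter.unusedSectionVars false

namespace Pool.Agent.U143.AR

open Equiv Equiv.Perm Pool.Agent.W446.AS Pool.Agent.W353.SN

variable {n : ℕ}

open Classical in
/-- the square of the distance to `a`, extended by zero -/
noncomputable def dist2 (θ : alternatingGroup (Fin n) → ℂ) (a : ℂ) (g : Perm (Fin n)) : ℝ :=
  if h : g ∈ alternatingGroup (Fin n) then ‖θ ⟨g, h⟩ - a‖ ^ 2 else 0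

lemma dist2_even {θ : alternatingGroup (Fin n) → ℂ} {a : ℂ} (g : alternatingGroup (Fin n)) :
    dist2 θ a g = ‖θ g - a‖ ^ 2 := dif_pos g.2

lemma dist2_odd {θ : alternatingGroup (Fin n) → ℂ} {a : ℂ} {g : Perm (Fin n)}
    (h : g ∉ alternatingGroup (Fin n)) : dist2 θ a g = 0 := dif_neg h

lemma conj_mem_iff (t g : Perm (Fin n)) :
    t * g * t⁻¹ ∈ alternatingGroup (Fin n) ↔ g ∈ alternatingGroup (Fin n) := by
  rw [mem_alternatingGroup, mem_alternatingGroup, map_mul, map_mul, map_inv, mul_comm (sign t),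
    mul_inv_cancel_right]

lemma dist2_conj {θ : alternatingGroup (Fin n) → ℂ} (hθ : Virt θ) {a : ℂ} {u : Perm (Fin n)}
    (hu : u ∈ alternatingGroup (Fin n)) (g : Perm (Fin n)) :
    dist2 θ a (u * g * u⁻¹) = dist2 θ a g := by
  by_cases hg : g ∈ alternatingGroup (Fin n)
  · have h1 : u * g * u⁻¹ = ((⟨u, hu⟩ * ⟨g, hg⟩ * ⟨u, hu⟩⁻¹ : alternatingGroup (Fin n)) : Perm (Fin n)) :=
      rfl
    rw [h1, dist2_even, hθ.conj]
    exact (dist2_even (⟨g, hg⟩ : alternatingGroup (Fin n))).symm
  · rw [dist2_odd hg, dist2_odd (fun h => hg ((conj_mem_iff u g).1 h))]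

/-- conjugation with an odd permutation -/
def cj (t : Perm (Fin n)) : alternatingGroup (Fin n) →* alternatingGroup (Fin n) where
  toFun g := ⟨t * g * t⁻¹, (conj_mem_iff t g).2 g.2⟩
  map_one' := by ext1; simp
  map_mul' g h := by ext1; simp [mul_assoc]

lemma dist2_cj {θ : alternatingGroup (Fin n) → ℂ} {a : ℂ} (t g : Perm (Fin n)) :
    dist2 θ a (t * g * t⁻¹) = dist2 (fun x => θ (cj t x)) a g := by
  by_cases hg : g ∈ alternatingGroup (Fin n)
  · rw [dist2, dist2, dif_pos hg, dif_pos ((conj_mem_iff t g).2 hg)]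
    rfl
  · rw [dist2_odd hg, dist2_odd (fun h => hg ((conj_mem_iff t g).1 h))]

/-- the sum over a subgroup -/
lemma sum_dist2 {θ : alternatingGroup (Fin n) → ℂ} (hθ : Virt θ) (a : ℤ) (Y : Subgroup (Perm (Fin n))) :
    ∃ k : ℤ, ∑ᶠ h : Y, dist2 θ a (h : Perm (Fin n))
      = k * Nat.card ((alternatingGroup (Fin n)).subgroupOf Y) := by
  classical
  let A := alternatingGroup (Fin n)
  let P : Subgroup Y := A.subgroupOf Y
  have : Fintype Y := Fintype.ofFinite _
  have : Fintype P := Fintype.ofFinite _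
  let f : P →* alternatingGroup (Fin n) :=
    { toFun := fun p => ⟨((p : Y) : Perm (Fin n)), p.2⟩
      map_one' := rfl
      map_mul' := fun _ _ => rfl }
  obtain ⟨k, hk⟩ := norm_int (virt_sub (hθ.comp f) (virt_const (G := P) a))
  refine ⟨k, ?_⟩
  rw [finsum_eq_sum_of_fintype]
  change _ = (k : ℝ) * Nat.card P
  rw [← hk]
  have h1 : ∑ y : Y, dist2 θ a (y : Perm (Fin n))
      = ∑ y ∈ Finset.univ.filter (fun y : Y => y ∈ P), dist2 θ a (y : Perm (Fin n)) := by
    rw [Finset.sum_filter]
    refine Finset.sum_congr rfl fun y _ => ?_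
    by_cases hy : y ∈ P
    · rw [if_pos hy]
    · rw [if_neg hy]
      exact dist2_odd (fun h => hy h)
  rw [h1, Finset.sum_subtype (p := fun y : Y => y ∈ P) (Finset.univ.filter (fun y : Y => y ∈ P))
    (fun y => by simp) (fun y : Y => dist2 θ a (y : Perm (Fin n)))]
  refine Finset.sum_congr rfl fun p _ => ?_
  exact dist2_even (f p)

/-- the two-fold sum -/
lemma ys_dist2 {θ : alternatingGroup (Fin n) → ℂ} (hθ : Virt θ) (a : ℤ) (t : Perm (Fin n))
    (ht : t ∉ alternatingGroup (Fin n)) :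
    YS (fun g => dist2 θ a g + dist2 θ a (t * g * t⁻¹)) := by
  classical
  intro r
  have : Fintype (yg r) := Fintype.ofFinite _
  obtain ⟨k, hk⟩ := sum_dist2 hθ a (yg r)
  obtain ⟨k', hk'⟩ := sum_dist2 (hθ.comp (cj t)) a (yg r)
  have hk'' : ∑ᶠ h : yg r, dist2 θ a (t * (h : Perm (Fin n)) * t⁻¹)
      = k' * Nat.card ((alternatingGroup (Fin n)).subgroupOf (yg r)) := by
    rw [← hk']
    exact finsum_congr fun h => dist2_cj t _
  rw [finsum_eq_sum_of_fintype] at hk hk''
  rw [finsum_eq_sum_of_fintype, Finset.sum_add_distrib, hk, hk'']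
  by_cases hY : yg r ≤ alternatingGroup (Fin n)
  · refine ⟨k + k', ?_⟩
    have h1 : (alternatingGroup (Fin n)).subgroupOf (yg r) = ⊤ := Subgroup.subgroupOf_eq_top.2 hY
    rw [h1, Subgroup.card_top]
    push_cast
    ring
  · obtain ⟨s, hs, hsA⟩ := SetLike.not_le_iff_exists.1 hY
    refine ⟨k, ?_⟩
    -- both sums agree
    have hts : t * s⁻¹ ∈ alternatingGroup (Fin n) := by
      rw [mem_alternatingGroup, map_mul, map_inv]
      rw [mem_alternatingGroup] at ht hsA
      have e1 := (Int.units_eq_one_or (sign t)).resolve_left ht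
      have e2 := (Int.units_eq_one_or (sign s)).resolve_left hsA
      rw [e1, e2]
      decide
    have h2 : ∑ h : yg r, dist2 θ a (t * (h : Perm (Fin n)) * t⁻¹)
        = ∑ h : yg r, dist2 θ a (h : Perm (Fin n)) := by
      rw [← Equiv.sum_comp (MulAut.conj (⟨s, hs⟩ : yg r)).toEquiv
        (fun h : yg r => dist2 θ a (h : Perm (Fin n)))]
      refine Finset.sum_congr rfl fun h _ => ?_
      have e : t * (h : Perm (Fin n)) * t⁻¹
          = (t * s⁻¹) * (s * (h : Perm (Fin n)) * s⁻¹) * (t * s⁻¹)⁻¹ := by group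
      rw [e, dist2_conj hθ hts]
      rfl
    have h3 : (k' : ℝ) * Nat.card ((alternatingGroup (Fin n)).subgroupOf (yg r))
        = k * Nat.card ((alternatingGroup (Fin n)).subgroupOf (yg r)) := by
      rw [← hk, ← hk'', h2]
    rw [h3]
    have h4 : Nat.card (yg r) = Nat.card ((alternatingGroup (Fin n)).subgroupOf (yg r)) * 2 := by
      rw [← Subgroup.card_mul_index ((alternatingGroup (Fin n)).subgroupOf (yg r))]
      congr 1
      have h5 : ((alternatingGroup (Fin n)).subgroupOf (yg r)).index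
          = (alternatingGroup (Fin n)).relIndex (yg r) := rfl
      rw [h5]
      have h6 : (alternatingGroup (Fin n)).relIndex (yg r) ∣ (alternatingGroup (Fin n)).index :=
        Subgroup.relIndex_dvd_index_of_normal _ _
      have h7 : (alternatingGroup (Fin n)).index = 2 := by
        have : Nontrivial (Fin n) := by
          by_contra hcon
          rw [not_nontrivial_iff_subsingleton] at hcon
          exact ht (by
            rw [Subsingleton.elim t 1]
            exact one_mem _)
        exact alternatingGroup.index_eq_two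
      rw [h7] at h6
      rcases (Nat.dvd_prime Nat.prime_two).1 h6 with h8 | h8
      · exact absurd (Subgroup.relIndex_eq_one.1 h8) hY
      · exact h8
    rw [h4]
    push_cast
    ring

/-- **Bounded virtual characters of large alternating groups are constant.** -/
theorem alt_const (b : ℝ) : ∃ n₀ : ℕ, ∀ n, n₀ ≤ n → ∀ θ : alternatingGroup (Fin n) → ℂ,
    Virt θ → (∀ g, ‖θ g‖ ≤ b) → ∀ g, θ g = θ 1 := by
  classical
  obtain ⟨n₀, hn₀⟩ := big (8 * b ^ 2)
  refine ⟨n₀ + 2, fun n hn θ hθ hb g => ?_⟩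
  obtain ⟨a, ha⟩ := virt_one hθ
  have hnt : Nontrivial (Fin n) := Fin.nontrivial_iff_two_le.2 (by omega)
  obtain ⟨x, y, hxy⟩ := exists_pair_ne (Fin n)
  have ht : swap x y ∉ alternatingGroup (Fin n) := by
    rw [mem_alternatingGroup, sign_swap hxy]
    decide
  have hb0 : 0 ≤ b := (norm_nonneg _).trans (hb 1)
  have hd : ∀ u : Perm (Fin n), 0 ≤ dist2 θ a u ∧ dist2 θ a u ≤ 4 * b ^ 2 := by
    intro u
    by_cases hu : u ∈ alternatingGroup (Fin n)
    · have e := dist2_even (θ := θ) (a := a) ⟨u, hu⟩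
      change dist2 θ a u = _ at e
      rw [e]
      refine ⟨by positivity, ?_⟩
      have h1 : ‖θ ⟨u, hu⟩ - (a : ℂ)‖ ≤ 2 * b := by
        rw [← ha]
        refine (norm_sub_le _ _).trans ?_
        have := hb ⟨u, hu⟩
        have := hb 1
        linarith
      calc ‖θ ⟨u, hu⟩ - (a : ℂ)‖ ^ 2 ≤ (2 * b) ^ 2 := by
            exact pow_le_pow_left₀ (norm_nonneg _) h1 2
        _ = 4 * b ^ 2 := by ring
    · rw [dist2_odd hu]
      exact ⟨le_rfl, by positivity⟩
  obtain ⟨α, β, hαβ⟩ := hn₀ (Fin n) (by rw [Fintype.card_fin]; omega)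
    (fun u => dist2 θ a u + dist2 θ a (swap x y * u * (swap x y)⁻¹)) (fun u v => by
      by_cases hv : v ∈ alternatingGroup (Fin n)
      · have e1 : swap x y * (v * u * v⁻¹) * (swap x y)⁻¹
            = (swap x y * v * (swap x y)⁻¹) * (swap x y * u * (swap x y)⁻¹)
              * (swap x y * v * (swap x y)⁻¹)⁻¹ := by group
        change dist2 θ a (v * u * v⁻¹) + dist2 θ a (swap x y * (v * u * v⁻¹) * (swap x y)⁻¹) = _
        rw [dist2_conj hθ hv, e1, dist2_conj hθ ((conj_mem_iff _ _).2 hv)]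
      · have hev : ∀ p q : Perm (Fin n), p ∉ alternatingGroup (Fin n) → q ∉ alternatingGroup (Fin n) →
            p * q ∈ alternatingGroup (Fin n) := by
          intro p q hp hq
          rw [mem_alternatingGroup] at hp hq ⊢
          rw [map_mul, (Int.units_eq_one_or (sign p)).resolve_left hp,
            (Int.units_eq_one_or (sign q)).resolve_left hq]
          decide
        have hti : (swap x y)⁻¹ ∉ alternatingGroup (Fin n) := fun h => ht (by simpa using inv_mem h)
        have e1 : v * u * v⁻¹ = (v * (swap x y)⁻¹) * (swap x y * u * (swap x y)⁻¹)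
            * (v * (swap x y)⁻¹)⁻¹ := by group
        have e2 : swap x y * (v * u * v⁻¹) * (swap x y)⁻¹
            = (swap x y * v) * u * (swap x y * v)⁻¹ := by group
        change dist2 θ a (v * u * v⁻¹) + dist2 θ a (swap x y * (v * u * v⁻¹) * (swap x y)⁻¹) = _
        rw [e2, dist2_conj hθ (hev _ _ ht hv), e1, dist2_conj hθ (hev _ _ hv hti), add_comm])
    (ys_dist2 hθ a _ ht) (fun u => by
      rw [abs_of_nonneg (add_nonneg (hd _).1 (hd _).1)]
      have h1 := (hd u).2
      have h2 := (hd (swap x y * u * (swap x y)⁻¹)).2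
      linarith)
  have h1 := hαβ 1
  have h2 := hαβ (swap x y)
  have h3 := hαβ g
  have e1 : dist2 θ a (1 : Perm (Fin n)) = 0 := by
    have e := dist2_even (θ := θ) (a := a) 1
    change dist2 θ a (1 : Perm (Fin n)) = _ at e
    rw [e, ha, sub_self, norm_zero]
    norm_num
  have e2 : dist2 θ a (swap x y) = 0 := dist2_odd ht
  have e3 : swap x y * swap x y * (swap x y)⁻¹ = swap x y := by group
  have e4 : swap x y * 1 * (swap x y)⁻¹ = (1 : Perm (Fin n)) := by group
  have hsg : sign (g : Perm (Fin n)) = 1 := mem_alternatingGroup.1 g.2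
  simp only [e4, e1, e3, e2, Perm.sign_one, sign_swap hxy] at h1 h2
  simp only [hsg] at h3
  push_cast at h1 h2 h3
  have h5 : dist2 θ a (g : Perm (Fin n)) = 0 := by
    have h6 := (hd (g : Perm (Fin n))).1
    have h7 := (hd (swap x y * (g : Perm (Fin n)) * (swap x y)⁻¹)).1
    have h8 : dist2 θ a (g : Perm (Fin n)) + dist2 θ a (swap x y * (g : Perm (Fin n)) * (swap x y)⁻¹)
        = 0 := by
      rw [h3]; linarith
    linarith
  rw [dist2_even] at h5
  have h6 : ‖θ g - (a : ℂ)‖ = 0 := pow_eq_zero_iff (two_ne_zero) |>.1 h5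
  rw [norm_eq_zero, sub_eq_zero] at h6
  rw [h6, ha]

end Pool.Agent.U143.AR
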