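import Pool.Agent.TH526.DS.CamDefs

/-!
# Towers of alternating extensions and the L-functions of a smooth projective variety: definitions

`X` is a smooth projective variety over a number field `K`; `L`, `M`, `F` are finite extensions of `K`,
`M` and `F` are Galois over `K`.
-/

set_option autoImplicit false

namespace Pool.Agent.U143.AR

open NumberField IsDedekindDomain Filter Topology Polynomial
open Pool.Agent.W353.EH (size OrderOver)
open Pool.Agent.W353.TD (rank Defect)
open Pool.Agent.W353.AT (IsTwistedSystem TwistOrder TwistDefect twistRank)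
open Pool.Agent.TH526.DS (IsNew)

section
variable {K : Type} [Field K]

/-- `M` and `F` are Galois over `K`, `M ⊆ F`, and a homomorphism from the absolute Galois group of `K` to
the symmetric group of degree `n` induces an isomorphism from `Gal(F/M)` to the alternating group.  For
example: `F` is generated over `M` by the roots of a polynomial of degree `n` with coefficients in `K` whose
Galois group over `M` is the alternating group.  (For `n ≥ 7` the homomorphism exists for all Galois
extensions `M ⊆ F` of `K` such that `Gal(F/M)` is isomorphic to the alternating group.) -/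
def IsAlternatingStep (n : ℕ) (M F : IntermediateField K (AlgebraicClosure K)) : Prop :=
  M ≤ F ∧ IsGalois K M ∧ IsGalois K F ∧ ∃ φ : Gal(AlgebraicClosure K/K) →* Equiv.Perm (Fin n),
    M.fixingSubgroup.map φ = alternatingGroup (Fin n) ∧ φ.ker ⊓ M.fixingSubgroup = F.fixingSubgroup

/-- There is a chain of fields `M = E t ⊆ … ⊆ E 0 = F` such that `E i` is obtained from `E (i + 1)` by an
alternating step of degree at least `m₀`. -/
def IsAlternatingTower (m₀ : ℕ) (M F : IntermediateField K (AlgebraicClosure K)) : Prop :=
  ∃ (t : ℕ) (E : ℕ → IntermediateField K (AlgebraicClosure K)), E 0 = F ∧ E t = M ∧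
    ∀ i < t, ∃ n, m₀ ≤ n ∧ IsAlternatingStep n (E (i + 1)) (E i)

variable [NumberField K] {n : ℕ}

/-- Let `F/M` be an alternating tower of degrees at least `m₀`, `τ` real and suppose that the `L`-functions
`L(H^i(X) ⊗ χ, s)`, `χ` an irreducible representation of `Gal(F/K)` that is not trivial on `Gal(F/M)`, have
meromorphic continuations to neighbourhoods of `i/2 + 1 + iτ`.
* All these functions have neither a zero nor a pole at `i/2 + 1 + iτ`.
* For every field `L` between `K` and `F` the difference of the values of
  `log |L(i/2 + 1 + iτ + ε)| / log(1/ε)` for `L(H^i(X_L), s)` and `L(H^i(X_{L ∩ M}), s)` tends to `0`; the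
  orders of these functions at `i/2 + 1 + iτ` are equal, if they have continuations. -/
def EdgeRigidity (X : Set (MvPolynomial (Fin n) (𝓞 K))) (d i N m₀ : ℕ) : Prop :=
  ∀ (M F : IntermediateField K (AlgebraicClosure K)) [NumberField M] [NumberField F] (τ : ℝ),
    IsGalois K M → IsGalois K F → IsAlternatingTower m₀ M F →
    (∀ (r : ℕ) (χ : Representation ℂ Gal(AlgebraicClosure K/K) (Fin r → ℂ)), IsNew M F χ →
      ∃ k : ℤ, TwistOrder X d i N χ τ k) →
    (∀ (r : ℕ) (χ : Representation ℂ Gal(AlgebraicClosure K/K) (Fin r → ℂ)), IsNew M F χ →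
      (∀ B : HeightOneSpectrum (𝓞 K) → ℂ[X], IsTwistedSystem X d i N χ τ B →
        Tendsto (size i τ B) (𝓝[>] 0) (𝓝 0)) ∧ ∀ k : ℤ, TwistOrder X d i N χ τ k → k = 0) ∧
    ∀ (L : IntermediateField K (AlgebraicClosure K)) [NumberField L]
      [NumberField (L ⊓ M : IntermediateField K (AlgebraicClosure K))], L ≤ F →
      (∀ (B : HeightOneSpectrum (𝓞 L) → ℂ[X])
        (B' : HeightOneSpectrum (𝓞 (L ⊓ M : IntermediateField K (AlgebraicClosure K))) → ℂ[X]),
        W353.EH.IsEulerSystem X d i N τ B → W353.EH.IsEulerSystem X d i N τ B' →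
        Tendsto (fun ε : ℝ => size i τ B ε - size i τ B' ε) (𝓝[>] 0) (𝓝 0)) ∧
      ∀ k k' : ℤ, OrderOver X d i N L τ k →
        OrderOver X d i N (L ⊓ M : IntermediateField K (AlgebraicClosure K)) τ k' → k = k'

/-- The same for Tate's conjecture on the poles at `s = m + 1` of the `L`-functions of `H^{2m}(X)`: the
representation `ρ` on `V` is a part of `H^{2m}(X)(m)`, for instance `A^m(X) ⊗ ℚ`.  Let `F/M` be an alternating
tower of degrees at least `m₀`, and suppose that the `L`-functions `L(H^{2m}(X) ⊗ χ, s)`, `χ` an irreducible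
representation of `Gal(F/K)` that is not trivial on `Gal(F/M)`, have (integral) defects; the defect is the
difference between the expected and the actual order of the pole at `m + 1`.
* All these defects are `0`: Tate's conjecture on the pole holds for these functions.
* For every field `L` between `K` and `F` the values of `log |L(m + 1 + ε)| / log(1/ε) - rank` for `X_L` and
  `X_{L ∩ M}` differ by a null function; the defects over `L` and over `L ∩ M` are equal. -/
def DefectRigidity (X : Set (MvPolynomial (Fin n) (𝓞 K))) (d m N m₀ : ℕ) {V : Type}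
    [AddCommGroup V] [Module ℚ V] (ρ : Representation ℚ Gal(AlgebraicClosure K/K) V) : Prop :=
  ∀ (M F : IntermediateField K (AlgebraicClosure K)) [NumberField M] [NumberField F],
    IsGalois K M → IsGalois K F → IsAlternatingTower m₀ M F →
    (∀ (r : ℕ) (χ : Representation ℂ Gal(AlgebraicClosure K/K) (Fin r → ℂ)), IsNew M F χ →
      ∃ δ : ℤ, TwistDefect X d m N ρ χ δ) →
    (∀ (r : ℕ) (χ : Representation ℂ Gal(AlgebraicClosure K/K) (Fin r → ℂ)), IsNew M F χ →
      (∀ B : HeightOneSpectrum (𝓞 K) → ℂ[X], IsTwistedSystem X d (2 * m) N χ 0 B →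
        Tendsto (size (2 * m) 0 B) (𝓝[>] 0) (𝓝 (twistRank ρ χ))) ∧
      ∀ δ : ℤ, TwistDefect X d m N ρ χ δ → δ = 0) ∧
    ∀ (L : IntermediateField K (AlgebraicClosure K)) [NumberField L]
      [NumberField (L ⊓ M : IntermediateField K (AlgebraicClosure K))], L ≤ F →
      (∀ (B : HeightOneSpectrum (𝓞 L) → ℂ[X])
        (B' : HeightOneSpectrum (𝓞 (L ⊓ M : IntermediateField K (AlgebraicClosure K))) → ℂ[X]),
        W353.EF.IsEulerSystem X d (2 * m) N B → W353.EF.IsEulerSystem X d (2 * m) N B' →
        Tendsto (fun ε : ℝ => (W353.EF.size (2 * m) B ε - rank ρ L) -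
          (W353.EF.size (2 * m) B' ε -
            rank ρ (L ⊓ M : IntermediateField K (AlgebraicClosure K)))) (𝓝[>] 0) (𝓝 0)) ∧
      ∀ δ δ' : ℤ, Defect X d m N ρ L δ →
        Defect X d m N ρ (L ⊓ M : IntermediateField K (AlgebraicClosure K)) δ' → δ = δ'

end

end Pool.Agent.U143.AR
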