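import Pool.Agent.U143.AR.Vir

/-!
# The squares of the degrees; virtual characters constant on the cosets of a normal subgroup
-/

set_option autoImplicit false
set_option linter.unusedSectionVars false

namespace Pool.Agent.U143.AR

open Pool.Agent.H302R2 Pool.Agent.H302R3 Pool.Agent.H541R3.ART Pool.Agent.W446.AS Pool.Agent.R389

variable {G : Type} [Group G] [Finite G]

lemma sum_sq : ∑ χ ∈ irrF G, χ 1 * χ 1 = (Nat.card G : ℂ) := by
  classical
  have : Fintype G := Fintype.ofFinite G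
  let f : G → ℂ := fun g => if g = 1 then (Nat.card G : ℂ) else 0
  have hf : ∀ g x : G, f (x * g * x⁻¹) = f g := by
    intro g x
    simp only [f, conj_eq_one_iff]
  have h := class_expand hf 1
  have h2 : ∀ χ : G → ℂ, pr f χ = χ 1 := by
    intro χ
    rw [pr_eq]
    have h3 : ∀ g, f g * χ g⁻¹ = if g = 1 then (Nat.card G : ℂ) * χ 1 else 0 := by
      intro g
      by_cases hg : g = 1
      · simp [f, hg]
      · simp [f, hg]
    rw [Finset.sum_congr rfl fun g _ => h3 g, Finset.sum_ite_eq' Finset.univ 1,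
      if_pos (Finset.mem_univ _), ← mul_assoc, inv_mul_cancel₀ card_ne, one_mul]
  have h4 : f 1 = (Nat.card G : ℂ) := if_pos rfl
  rw [h4] at h
  rw [h]
  exact Finset.sum_congr rfl fun χ _ => by rw [h2]

open Classical in
/-- functions constant on the cosets of `N` are orthogonal to functions with mean zero on them -/
lemma pr_zero_of_mean [Fintype G] {θ χ : G → ℂ} (N : Subgroup G) (hθ : ∀ x, ∀ n ∈ N, θ (x * n) = θ x)
    (hχ : ∀ g x : G, χ (x * g * x⁻¹) = χ g)
    (h : ∀ g, ∑ x : G, (if x ∈ N then (1 : ℂ) else 0) * χ (g * x) = 0) : pr θ χ = 0 := by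
  rw [pr_eq]
  have h1 : ∀ n ∈ N, ∑ g : G, θ g * χ g⁻¹ = ∑ g : G, θ g * χ (g⁻¹ * n) := by
    intro n hn
    rw [← Equiv.sum_comp (Equiv.mulRight (n⁻¹ : G)) (fun g => θ g * χ g⁻¹)]
    refine Finset.sum_congr rfl fun g _ => ?_
    simp only [Equiv.coe_mulRight, mul_inv_rev, inv_inv]
    rw [hθ g _ (N.inv_mem hn)]
    congr 1
    have e : n * g⁻¹ = n * (g⁻¹ * n) * n⁻¹ := by group
    rw [e, hχ]
  have h2 : (∑ x : G, (if x ∈ N then (1 : ℂ) else 0)) * ∑ g : G, θ g * χ g⁻¹ = 0 := by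
    rw [Finset.sum_mul]
    have h3 : ∀ x : G, (if x ∈ N then (1 : ℂ) else 0) * ∑ g : G, θ g * χ g⁻¹
        = ∑ g : G, θ g * ((if x ∈ N then (1 : ℂ) else 0) * χ (g⁻¹ * x)) := by
      intro x
      by_cases hx : x ∈ N
      · simp only [if_pos hx, one_mul]
        exact h1 x hx
      · simp only [if_neg hx, zero_mul, mul_zero, Finset.sum_const_zero]
    rw [Finset.sum_congr rfl fun x _ => h3 x, Finset.sum_comm]
    refine Finset.sum_eq_zero fun g _ => ?_
    rw [← Finset.mul_sum, h, mul_zero]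
  have h5 : (∑ x : G, (if x ∈ N then (1 : ℂ) else 0)) ≠ 0 := by
    have h6 : (∑ x : G, (if x ∈ N then (1 : ℂ) else 0)) = ((∑ x : G, (if x ∈ N then 1 else 0) : ℕ) : ℂ) := by
      push_cast
      rfl
    rw [h6]
    have h7 : 0 < ∑ x : G, (if x ∈ N then 1 else 0) :=
      Finset.sum_pos' (fun _ _ => Nat.zero_le _) ⟨1, Finset.mem_univ _, by
        rw [if_pos (one_mem N)]; exact Nat.one_pos⟩
    exact_mod_cast h7.ne'
  rw [(mul_eq_zero.mp h2).resolve_left h5, mul_zero]

end Pool.Agent.U143.AR
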