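import Pool.Agent.U143.AR.Sym

/-!
# Bounded virtual characters are constant on the cosets of alternating layers
-/

set_option autoImplicit false
set_option linter.unusedSectionVars false

namespace Pool.Agent.U143.AR

open Equiv Equiv.Perm Pool.Agent.W446.AS
open Pool.Agent.H302R5 (push)

lemma push_norm {G Q : Type} [Group G] [Fintype G] [Group Q] [Finite Q] {π : G →* Q}
    (hπ : Function.Surjective π) {θ : G → ℂ} {b : ℝ} (hb : ∀ g, ‖θ g‖ ≤ b) (q : Q) :
    ‖push π θ q‖ ≤ b := by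
  classical
  obtain ⟨g, rfl⟩ := hπ q
  have : Fintype π.ker := Fintype.ofFinite _
  rw [push_apply, norm_mul, norm_inv, Complex.norm_natCast]
  have hc : (0 : ℝ) < Nat.card π.ker := by exact_mod_cast Nat.card_pos
  rw [inv_mul_le_iff₀ hc]
  refine (norm_sum_le _ _).trans ?_
  refine (Finset.sum_le_sum fun (n : π.ker) _ => hb (g * (n : G))).trans ?_
  rw [Finset.sum_const, Finset.card_univ, nsmul_eq_mul, ← Nat.card_eq_fintype_card]

/-- one layer, commutative quotient -/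
theorem layer_comm (b : ℝ) : ∃ n₀ : ℕ, ∀ n, n₀ ≤ n → ∀ (H : Type) [Group H] [Finite H]
    (A B : Subgroup H) [A.Normal] (π : H →* Perm (Fin n)),
    A.map π = alternatingGroup (Fin n) → π.ker ⊓ A = B →
    (∀ x y : H ⧸ A, x * y = y * x) → ∀ θ : H → ℂ, Virt θ → (∀ g, ‖θ g‖ ≤ b) →
    (∀ x, ∀ c ∈ B, θ (x * c) = θ x) → ∀ x, ∀ a ∈ A, θ (x * a) = θ x := by
  classical
  obtain ⟨n₀, hn₀⟩ := quo_const b
  refine ⟨n₀, fun n hn H _ _ A B _ π hA hB hcomm θ hθ hb hθB x a ha => ?_⟩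
  have : Fintype H := Fintype.ofFinite _
  obtain ⟨ι, _, μ, hμ⟩ := exists_dual (H ⧸ A) hcomm
  let π' : H →* π.range := π.rangeRestrict
  have hπ' : Function.Surjective π' := π.rangeRestrict_surjective
  have : Fintype π'.ker := Fintype.ofFinite _
  let ν : ι → (H →* ℂˣ) := fun i => (μ i).comp (QuotientGroup.mk' A)
  let f : ι → H → ℂ := fun i h => θ h * ((ν i h : ℂˣ) : ℂ)
  have hf : ∀ i, Virt (f i) := fun i => virt_lin hθ (ν i)
  have hν1 : ∀ i h, ‖((ν i h : ℂˣ) : ℂ)‖ = 1 := by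
    intro i h
    have h1 : ((ν i h : ℂˣ) : ℂ) ^ Nat.card H = 1 := by
      rw [← Units.val_pow_eq_pow_val, ← map_pow, pow_card_eq_one', map_one, Units.val_one]
    exact Complex.norm_eq_one_of_pow_eq_one h1 Nat.card_pos.ne'
  have hfb : ∀ i h, ‖f i h‖ ≤ b := by
    intro i h
    change ‖θ h * _‖ ≤ b
    rw [norm_mul, hν1, mul_one]
    exact hb h
  -- the pushed functions
  have hΘ : ∀ i (q q' : π.range), (q' : Perm (Fin n)) ∈ alternatingGroup (Fin n) →
      push π' (f i) (q * q') = push π' (f i) q := fun i q q' hq' =>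
    hn₀ n hn π.range π.range.subtype Subtype.val_injective (by
      rw [Subgroup.range_subtype, ← hA]
      rintro y ⟨a, -, rfl⟩
      exact ⟨a, rfl⟩) (push π' (f i)) ((hf i).push hπ') (push_norm hπ' (hfb i))
      q q' hq'
  -- the sum
  let S : H → ℂ := fun h => ∑ i, push π' (f i) (π' h) * ((ν i h : ℂˣ) : ℂ)⁻¹
  let κ : ℂ := (Nat.card π'.ker : ℂ)⁻¹ * ∑ c : π'.ker, if (QuotientGroup.mk' A (c : H)) = 1
    then (Nat.card (H ⧸ A) : ℂ) else 0
  have hS : ∀ h, S h = κ * θ h := by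
    intro h
    have h1 : ∀ i, push π' (f i) (π' h) * ((ν i h : ℂˣ) : ℂ)⁻¹ = (Nat.card π'.ker : ℂ)⁻¹ *
        ∑ c : π'.ker, θ (h * c) * ((ν i (c : H) : ℂˣ) : ℂ) := by
      intro i
      rw [push_apply, mul_assoc, Finset.sum_mul]
      congr 1
      refine Finset.sum_congr rfl fun c _ => ?_
      change θ (h * c) * ((ν i (h * c) : ℂˣ) : ℂ) * _ = _
      rw [map_mul, Units.val_mul]
      have h0 : ((ν i h : ℂˣ) : ℂ) ≠ 0 := Units.ne_zero _
      field_simp
    change ∑ i, push π' (f i) (π' h) * ((ν i h : ℂˣ) : ℂ)⁻¹ = _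
    rw [Finset.sum_congr rfl fun i _ => h1 i, ← Finset.mul_sum, Finset.sum_comm, mul_assoc]
    congr 1
    rw [Finset.sum_mul]
    refine Finset.sum_congr rfl fun c _ => ?_
    rw [← Finset.mul_sum]
    have h2 : ∑ i, ((ν i (c : H) : ℂˣ) : ℂ) = if (QuotientGroup.mk' A (c : H)) = 1
        then (Nat.card (H ⧸ A) : ℂ) else 0 := by
      have h := hμ (QuotientGroup.mk' A (c : H))
      have h' : ∑ i, ((ν i (c : H) : ℂˣ) : ℂ) = ∑ i, ((μ i (QuotientGroup.mk' A (c : H)) : ℂˣ) : ℂ) :=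
        rfl
      rw [h', h]
      congr
    rw [h2]
    split_ifs with h3
    · have h4 : (c : H) ∈ A := by
        rwa [QuotientGroup.mk'_apply, QuotientGroup.eq_one_iff] at h3
      have h5 : (c : H) ∈ B := by
        rw [← hB]
        refine ⟨?_, h4⟩
        have h6 := c.2
        rw [MonoidHom.mem_ker] at h6
        exact MonoidHom.mem_ker.2 (congrArg Subtype.val h6)
      rw [hθB h _ h5, mul_comm]
    · simp
  have hκ : κ ≠ 0 := by
    refine mul_ne_zero (inv_ne_zero card_ne) ?_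
    have h1 : ∀ c : π'.ker, (if (QuotientGroup.mk' A (c : H)) = 1
        then (Nat.card (H ⧸ A) : ℂ) else 0) = (((if (QuotientGroup.mk' A (c : H)) = 1
        then Nat.card (H ⧸ A) else 0 : ℕ)) : ℂ) := by
      intro c
      split_ifs <;> simp
    rw [Finset.sum_congr rfl fun c _ => h1 c, ← Nat.cast_sum]
    have h2 : 0 < ∑ c : π'.ker, (if (QuotientGroup.mk' A (c : H)) = 1
        then Nat.card (H ⧸ A) else 0) := by
      refine Finset.sum_pos' (fun _ _ => Nat.zero_le _) ⟨1, Finset.mem_univ _, ?_⟩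
      rw [if_pos (by simp)]
      exact Nat.card_pos
    exact_mod_cast h2.ne'
  have hSa : S (x * a) = S x := by
    refine Finset.sum_congr rfl fun i _ => ?_
    have h1 : ν i (x * a) = ν i x := by
      change μ i (QuotientGroup.mk' A (x * a)) = μ i (QuotientGroup.mk' A x)
      have h2 : QuotientGroup.mk' A a = 1 := by
        rw [QuotientGroup.mk'_apply, QuotientGroup.eq_one_iff]
        exact ha
      rw [map_mul, h2, mul_one]
    rw [h1, map_mul, hΘ i (π' x) (π' a) (by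
      rw [← hA]
      exact ⟨a, ha, rfl⟩)]
  rw [hS, hS] at hSa
  exact mul_left_cancel₀ hκ hSa

/-- one layer -/
theorem layer (b : ℝ) : ∃ n₀ : ℕ, ∀ n, n₀ ≤ n → ∀ (G : Type) [Group G] [Finite G]
    (A B : Subgroup G) [A.Normal] (π : G →* Perm (Fin n)),
    A.map π = alternatingGroup (Fin n) → π.ker ⊓ A = B →
    ∀ θ : G → ℂ, Virt θ → (∀ g, ‖θ g‖ ≤ b) →
    (∀ x, ∀ c ∈ B, θ (x * c) = θ x) → ∀ x, ∀ a ∈ A, θ (x * a) = θ x := by
  classical
  obtain ⟨n₀, hn₀⟩ := layer_comm b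
  refine ⟨n₀, fun n hn G _ _ A B _ π hA hB θ hθ hb hθB x a ha => ?_⟩
  let H : Subgroup G := A ⊔ Subgroup.zpowers x
  have hAH : A ≤ H := le_sup_left
  have hxH : x ∈ H := (le_sup_right : Subgroup.zpowers x ≤ H) (Subgroup.mem_zpowers x)
  let A' : Subgroup H := A.subgroupOf H
  have hAn : A'.Normal := Subgroup.normal_subgroupOf
  have hxx : ∀ y : H ⧸ A', ∃ k : ℤ, y = (QuotientGroup.mk' A' ⟨x, hxH⟩) ^ k := by
    intro y
    obtain ⟨⟨h, hh⟩, rfl⟩ := QuotientGroup.mk'_surjective A' y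
    obtain ⟨c, hc, z, hz, hcz⟩ := Subgroup.mem_sup_of_normal_left.1 hh
    obtain ⟨k, rfl⟩ := Subgroup.mem_zpowers_iff.1 hz
    refine ⟨k, ?_⟩
    have h1 : (⟨h, hh⟩ : H) = ⟨c, hAH hc⟩ * ⟨x, hxH⟩ ^ k := by
      apply Subtype.ext
      rw [Subgroup.coe_mul, Subgroup.coe_zpow]
      exact hcz.symm
    have h2 : QuotientGroup.mk' A' ⟨c, hAH hc⟩ = 1 := by
      rw [QuotientGroup.mk'_apply, QuotientGroup.eq_one_iff]
      exact hc
    rw [h1, map_mul, map_zpow, h2, one_mul]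
  have hcomm : ∀ y z : H ⧸ A', y * z = z * y := by
    intro y z
    obtain ⟨k, rfl⟩ := hxx y
    obtain ⟨l, rfl⟩ := hxx z
    rw [← zpow_add, ← zpow_add, add_comm]
  have h := hn₀ n hn H A' (B.subgroupOf H) (π.comp H.subtype) (by
      rw [← hA]
      ext p
      constructor
      · rintro ⟨h, hh, rfl⟩
        exact ⟨h, hh, rfl⟩
      · rintro ⟨h, hh, rfl⟩
        exact ⟨⟨h, hAH hh⟩, hh, rfl⟩) (by
      ext h
      rw [Subgroup.mem_subgroupOf, ← hB]
      rfl) hcomm (fun h => θ h) (hθ.comp H.subtype) (fun h => hb h)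
    (fun y c hc => hθB y c hc) ⟨x, hxH⟩ ⟨a, hAH ha⟩ ha
  exact h

/-- **Chains of alternating layers.** -/
theorem chain (b : ℝ) : ∃ n₀ : ℕ, ∀ (G : Type) [Group G] [Finite G] (t : ℕ) (C : ℕ → Subgroup G)
    (_ : ∀ i, (C i).Normal), C 0 = ⊥ → (∀ i < t, ∃ n, n₀ ≤ n ∧ ∃ π : G →* Perm (Fin n),
      (C (i + 1)).map π = alternatingGroup (Fin n) ∧ π.ker ⊓ C (i + 1) = C i) →
    ∀ θ : G → ℂ, Virt θ → (∀ g, ‖θ g‖ ≤ b) → ∀ x, ∀ a ∈ C t, θ (x * a) = θ x := by
  classical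
  obtain ⟨n₀, hn₀⟩ := layer b
  refine ⟨n₀, fun G _ _ t C hC h0 hl θ hθ hb => ?_⟩
  induction t with
  | zero =>
    intro x a ha
    rw [h0, Subgroup.mem_bot] at ha
    rw [ha, mul_one]
  | succ t ih =>
    obtain ⟨n, hn, π, h1, h2⟩ := hl t (Nat.lt_succ_self t)
    have := hC (t + 1)
    exact hn₀ n hn G (C (t + 1)) (C t) π h1 h2 θ hθ hb
      (ih fun i hi => hl i (hi.trans (Nat.lt_succ_self t)))

end Pool.Agent.U143.AR
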