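import Pool.Agent.TH526.DS.CamMain
import Pool.Agent.U143.AR.Step
import Pool.Agent.U143.AR.Sq

/-!
# The orders on the edge line for alternating layers
-/

set_option autoImplicit false
set_option linter.unusedSectionVars false

namespace Pool.Agent.U143.AR

open Complex Filter Topology ComplexConjugate NumberField IsDedekindDomain Polynomial
  Pool.Agent.W401.Cheb Pool.Agent.W540.BE Pool.Agent.W353.L1 Pool.Agent.W353.AT
  Pool.Agent.TH526.DS
open Pool.Agent.H341R2 (lam)

section
variable {K : Type} [Field K] [NumberField K] {T : HeightOneSpectrum (𝓞 K) → ℝ} {s : ℝ}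
  (hs : 0 ≤ s) (hT : ∀ v, |T v| ≤ s) {σ : HeightOneSpectrum (𝓞 K) → GK K}
  (hσ : ∀ v, IsFrob v (σ v)) {τ : ℝ} (U : Subgroup (GK K)) [U.Normal]
  (hU : IsOpen (U : Set (GK K))) [Finite (GK K ⧸ U)] (A : Subgroup (GK K ⧸ U)) [A.Normal]

include hs hT hσ hU in
/-- **The integral limits for the characters that are not trivial on a normal subgroup form a bounded
virtual character.** -/
theorem exists_theta (H : ∀ (n : ℕ) (χ : Representation ℂ (GK K) (Fin n → ℂ)), χ.IsIrreducible →
    ∀ h : ∀ u ∈ U, χ u = 1, (∃ a ∈ A, (qrep U χ h) a ≠ 1) → ∃ δ : ℤ, Lim T σ ⟨n, χ⟩ τ δ) :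
    ∃ θ : GK K ⧸ U → ℂ, Pool.Agent.W446.AS.Virt θ ∧ (∀ q, ‖θ q‖ ≤ 2 * (s * heightFactor τ)) ∧
      ∀ (n : ℕ) (χ : Representation ℂ (GK K) (Fin n → ℂ)) (_ : χ.IsIrreducible)
        (h : ∀ u ∈ U, χ u = 1), (∃ a ∈ A, (qrep U χ h) a ≠ 1) → ∀ δ : ℝ, Lim T σ ⟨n, χ⟩ τ δ →
          Pool.Agent.W446.AS.pr θ (qrep U χ h).character = δ := by
  classical
  let Q : Type := GK K ⧸ U
  let _ : Fintype (GK K ⧸ U) := Fintype.ofFinite _
  let κ : Type := {χ : Q → ℂ // χ ∈ Pool.Agent.H541R3.ART.irrF Q}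
  let _ : Fintype κ := Finset.fintypeCoeSort _
  have hirr : ∀ k : κ, ∃ (n : ℕ) (r : Representation ℂ Q (Fin n → ℂ)), r.IsIrreducible ∧
      k.1 = r.character := fun k => Pool.Agent.H541R3.ART.mem_irrF.1 k.2
  choose n r hr hrk using hirr
  let ρ : ∀ k, Representation ℂ (GK K) (Fin (n k) → ℂ) := fun k => (infl U ⟨n k, r k⟩).2
  have hρ : ∀ k, ∀ u ∈ U, ρ k u = 1 := fun k => infl_triv U ⟨n k, r k⟩
  have hρi : ∀ k, (ρ k).IsIrreducible := fun k => infl_irr U ⟨n k, r k⟩ (hr k)
  have hρc : ∀ k g, (ρ k).character g = k.1 (QuotientGroup.mk g) := fun k g => by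
    rw [hrk k]
    rfl
  let New : κ → Prop := fun k => ∃ a ∈ A, r k a ≠ 1
  have hnewρ : ∀ k, New k → ∃ a ∈ A, (qrep U (ρ k) (hρ k)) a ≠ 1 := by
    rintro k ⟨a, ha, hane⟩
    refine ⟨a, ha, ?_⟩
    obtain ⟨g, rfl⟩ := QuotientGroup.mk_surjective a
    exact hane
  have hδ : ∀ k, ∃ d : ℤ, (New k → Lim T σ ⟨n k, ρ k⟩ τ d) ∧ (¬ New k → d = 0) := by
    intro k
    by_cases hk : New k
    · obtain ⟨d, hd⟩ := H (n k) (ρ k) (hρi k) (hρ k) (hnewρ k hk)
      exact ⟨d, fun _ => hd, fun h => absurd hk h⟩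
    · exact ⟨0, fun h => absurd h hk, fun _ => rfl⟩
  choose δ hδ hδ0 using hδ
  -- the complete family
  have hne : ∀ k ∈ (Finset.univ : Finset κ), ∀ l ∈ (Finset.univ : Finset κ), k ≠ l →
      IsEmpty ((ρ k).Equiv (ρ l)) := by
    intro k _ l _ hkl
    refine ⟨fun e => hkl (Subtype.ext (funext fun q => ?_))⟩
    obtain ⟨g, rfl⟩ := QuotientGroup.mk_surjective q
    rw [← hρc, ← hρc, Representation.char_iso e]
  have hone : ∀ k : κ, k.1 1 = n k := by
    intro k
    rw [hrk k, Representation.char_one, Module.finrank_fin_fun]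
  have hsum : ∑ k : κ, n k ^ 2 = Nat.card (GK K ⧸ U) := by
    have h1 := sum_sq (G := Q)
    rw [← Finset.sum_coe_sort] at h1
    have h2 : (((∑ k : κ, n k ^ 2 : ℕ)) : ℂ) = (Nat.card (GK K ⧸ U) : ℕ) := by
      rw [← h1]
      push_cast
      refine Finset.sum_congr rfl fun k _ => ?_
      rw [hone k]
      ring
    exact_mod_cast h2
  let x : κ → ℝ → ℝ := fun k ε => (EP (nm K) ε fun v => T v * RR (ρ k) τ σ v) / lam ε
  have hx : ∀ k ∈ (Finset.univ : Finset κ), Tendsto (fun ε : ℝ =>
      (EP (nm K) ε fun v => T v * RR (ρ k) τ σ v) / lam ε - x k ε) (𝓝[>] 0) (𝓝 0) := by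
    intro k _
    simp only [x, sub_self]
    exact tendsto_const_nhds
  -- the part of the characters that are not trivial on `A`
  let cR : ℝ := ∑ a : GK K ⧸ U, if a ∈ A then (1 : ℝ) else 0
  have hcR : 0 < cR := by
    have h1 : (if (1 : GK K ⧸ U) ∈ A then (1 : ℝ) else 0) ≤ cR :=
      Finset.single_le_sum (f := fun a : GK K ⧸ U => if a ∈ A then (1 : ℝ) else 0)
        (fun a _ => by split_ifs <;> norm_num) (Finset.mem_univ _)
    rw [if_pos A.one_mem] at h1
    linarith
  have hc : (∑ a : GK K ⧸ U, if a ∈ A then (1 : ℂ) else 0) = (cR : ℂ) := by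
    simp only [cR]
    push_cast
    exact Finset.sum_congr rfl fun a _ => by split_ifs <;> simp
  have hcC : (cR : ℂ) ≠ 0 := by exact_mod_cast hcR.ne'
  have key : ∀ (y : κ → ℂ) (q : GK K ⧸ U), ∑ k, (if New k then y k else 0) * k.1 q =
      ∑ k, y k * k.1 q - (cR : ℂ)⁻¹ * ∑ a : GK K ⧸ U, (if a ∈ A then (1 : ℂ) else 0) *
        ∑ k, y k * k.1 (q * a) := by
    intro y q
    have h1 : ∑ a : GK K ⧸ U, (if a ∈ A then (1 : ℂ) else 0) * ∑ k, y k * k.1 (q * a) =
        ∑ k, y k * ∑ a : GK K ⧸ U, (if a ∈ A then (1 : ℂ) else 0) * k.1 (q * a) := by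
      simp_rw [Finset.mul_sum]
      rw [Finset.sum_comm]
      exact Finset.sum_congr rfl fun k _ => Finset.sum_congr rfl fun a _ => by ring
    rw [h1, Finset.mul_sum, ← Finset.sum_sub_distrib]
    refine Finset.sum_congr rfl fun k _ => ?_
    by_cases hk : New k
    · rw [if_pos hk]
      have h3 : ∑ a : GK K ⧸ U, (if a ∈ A then (1 : ℂ) else 0) * k.1 (q * a) = 0 := by
        have h2 := char_sum_zero (r k) (hr k) A hk q
        rw [hrk k]
        convert h2
      rw [h3]
      ring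
    · rw [if_neg hk]
      have h3 : ∑ a : GK K ⧸ U, (if a ∈ A then (1 : ℂ) else 0) * k.1 (q * a) = cR * k.1 q := by
        rw [← hc, Finset.sum_mul]
        refine Finset.sum_congr rfl fun a _ => ?_
        by_cases ha : a ∈ A
        · have h4 : r k a = 1 := by
            by_contra h5
            exact hk ⟨a, ha, h5⟩
          have h5 : k.1 (q * a) = k.1 q := by
            rw [hrk k]
            unfold Representation.character
            rw [map_mul, h4, mul_one]
          rw [h5]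
        · rw [if_neg ha, zero_mul, zero_mul]
      rw [h3]
      field_simp
      ring
  have hbd : ∀ (y : κ → ℂ) (B : ℝ), (∀ q : GK K ⧸ U, ‖∑ k, y k * k.1 q‖ ≤ B) →
      ∀ q : GK K ⧸ U, ‖∑ k, (if New k then y k else 0) * k.1 q‖ ≤ 2 * B := by
    intro y B hB q
    rw [key y q]
    refine (norm_sub_le _ _).trans ?_
    have h1 : ‖(cR : ℂ)⁻¹ * ∑ a : GK K ⧸ U, (if a ∈ A then (1 : ℂ) else 0) *
        ∑ k, y k * k.1 (q * a)‖ ≤ B := by
      rw [norm_mul, norm_inv, Complex.norm_real, Real.norm_eq_abs, abs_of_pos hcR]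
      have h2 : ‖∑ a : GK K ⧸ U, (if a ∈ A then (1 : ℂ) else 0) *
          ∑ k, y k * k.1 (q * a)‖ ≤ cR * B := by
        refine (norm_sum_le _ _).trans ?_
        simp only [cR]
        rw [Finset.sum_mul]
        refine Finset.sum_le_sum fun a _ => ?_
        by_cases ha : a ∈ A
        · rw [if_pos ha, if_pos ha, one_mul, one_mul]
          exact hB _
        · rw [if_neg ha, if_neg ha, zero_mul, zero_mul, norm_zero]
      calc cR⁻¹ * ‖∑ a : GK K ⧸ U, (if a ∈ A then (1 : ℂ) else 0) *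
          ∑ k, y k * k.1 (q * a)‖ ≤ cR⁻¹ * (cR * B) :=
            mul_le_mul_of_nonneg_left h2 (inv_nonneg.2 hcR.le)
        _ = B := by
            rw [← mul_assoc, inv_mul_cancel₀ hcR.ne', one_mul]
    linarith [hB q]
  let θ : Q → ℂ := fun q => ∑ k : κ, (δ k : ℂ) * k.1 q
  have hθ : Pool.Agent.W446.AS.Virt θ := by
    have e : θ = ∑ k : κ, δ k • k.1 := by
      funext q
      rw [Finset.sum_apply]
      exact Finset.sum_congr rfl fun k _ => by rw [Pi.smul_apply, zsmul_eq_mul]
    rw [e]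
    exact sum_mem fun k _ => zsmul_mem (AddSubgroup.subset_closure
      (Pool.Agent.H541R3.ART.mem_irrF.1 k.2)) _
  refine ⟨θ, hθ, fun q => ?_, fun m χ hχ htriv hnew δ' hlim => ?_⟩
  · refine le_of_forall_pos_le_add fun η hη => ?_
    have h4 := complete1 U hU Finset.univ ρ hρ τ σ hσ hs hT hx (fun k _ => hρi k) hne hsum
      (half_pos hη)
    have h5 : Tendsto (fun ε : ℝ => ‖∑ k : κ, (if New k then ((x k ε : ℝ) : ℂ) else 0) * k.1 q‖)
        (𝓝[>] 0) (𝓝 ‖∑ k : κ, (if New k then (((δ k : ℤ) : ℝ) : ℂ) else 0) * k.1 q‖) := by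
      refine Tendsto.norm (tendsto_finsetSum _ fun k _ => ?_)
      by_cases hk : New k
      · rw [if_pos hk]
        simp only [if_pos hk]
        exact ((Complex.continuous_ofReal.tendsto _).comp (hδ k hk)).mul_const _
      · rw [if_neg hk]
        simp only [if_neg hk]
        exact tendsto_const_nhds
    have h6 := le_of_tendsto h5 (h4.mono fun ε hε => hbd (fun k => ((x k ε : ℝ) : ℂ)) _
      (fun q' => by
        obtain ⟨g, rfl⟩ := QuotientGroup.mk_surjective q'
        have h7 := hε g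
        simp only [hρc] at h7
        exact h7) q)
    have e : ∑ k : κ, (if New k then (((δ k : ℤ) : ℝ) : ℂ) else 0) * k.1 q = θ q := by
      refine Finset.sum_congr rfl fun k _ => ?_
      by_cases hk : New k
      · rw [if_pos hk]
        push_cast
        rfl
      · rw [if_neg hk, hδ0 k hk, Int.cast_zero]
    rw [e] at h6
    linarith
  · -- the multiplicities
    have hmem : (qrep U χ htriv).character ∈ Pool.Agent.H541R3.ART.Irr Q :=
      ⟨m, qrep U χ htriv, qrep_irr U χ htriv hχ, rfl⟩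
    let k₀ : κ := ⟨(qrep U χ htriv).character, Pool.Agent.H541R3.ART.mem_irrF.2 hmem⟩
    let nn : (Q → ℂ) → ℂ := fun χ => if h : χ ∈ Pool.Agent.H541R3.ART.irrF Q then (δ ⟨χ, h⟩ : ℂ) else 0
    have e : θ = fun g => ∑ ψ ∈ Pool.Agent.H541R3.ART.irrF Q, nn ψ * ψ g := by
      funext q
      rw [← Finset.sum_coe_sort]
      refine Finset.sum_congr rfl fun k _ => ?_
      simp only [nn]
      rw [dif_pos k.2]
    have h1 : Pool.Agent.W446.AS.pr θ (qrep U χ htriv).character = (δ k₀ : ℂ) := by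
      rw [e, Pool.Agent.R389.pr_sum_irr nn hmem]
      exact dif_pos k₀.2
    have hk₀ : New k₀ := by
      by_contra hcon
      obtain ⟨a, ha, hane⟩ := hnew
      -- the mean value over a coset distinguishes the two cases
      have h2 : ∑ a : GK K ⧸ U, (if a ∈ A then (1 : ℂ) else 0) *
          (qrep U χ htriv).character (1 * a) = 0 := by
        have h2' := char_sum_zero (qrep U χ htriv) (qrep_irr U χ htriv hχ) A ⟨a, ha, hane⟩ 1
        convert h2'
      have h3 : ∑ a : GK K ⧸ U, (if a ∈ A then (1 : ℂ) else 0) *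
          (qrep U χ htriv).character (1 * a) = cR * k₀.1 1 := by
        rw [← hc, Finset.sum_mul]
        refine Finset.sum_congr rfl fun a _ => ?_
        by_cases ha : a ∈ A
        · have h4 : r k₀ a = 1 := by
            by_contra h5
            exact hcon ⟨a, ha, h5⟩
          have h5 : k₀.1 (1 * a) = k₀.1 1 := by
            rw [hrk k₀]
            unfold Representation.character
            rw [map_mul, h4, mul_one]
          rw [← h5]
        · rw [if_neg ha, zero_mul, zero_mul]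
      rw [h2] at h3
      have h4 : k₀.1 1 = 0 := by
        rcases mul_eq_zero.1 h3.symm with h | h
        · exact absurd h hcC
        · exact h
      have h5 : (m : ℂ) = 0 := by
        rw [← h4]
        change (m : ℂ) = (qrep U χ htriv).character 1
        rw [Representation.char_one, Module.finrank_fin_fun]
      have h6 : m = 0 := by exact_mod_cast h5
      subst h6
      have h7 : Nontrivial (Fin 0 → ℂ) := by
        have := (qrep_irr U χ htriv hχ)
        by_contra h8
        rw [not_nontrivial_iff_subsingleton] at h8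
        refine hane (LinearMap.ext fun v => Subsingleton.elim _ _)
      obtain ⟨u, v, huv⟩ := h7
      exact huv (Subsingleton.elim _ _)
    have h2 : Lim T σ ⟨m, χ⟩ τ ((δ k₀ : ℤ) : ℝ) := by
      have h3 := hδ k₀ hk₀
      unfold Lim at h3 ⊢
      have h4 : (fun v => T v * RR (ρ k₀) τ σ v) = fun v => T v * RR χ τ σ v := by
        funext v
        congr 1
        unfold RR
        rw [hρc]
        rfl
      change Tendsto (fun ε : ℝ => (EP (nm K) ε fun v => T v * RR (ρ k₀) τ σ v) / lam ε) _ _ at h3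
      rw [h4] at h3
      exact h3
    have h5 : δ' = ((δ k₀ : ℤ) : ℝ) := tendsto_nhds_unique hlim h2
    rw [h1, h5]
    push_cast
    rfl

end

end Pool.Agent.U143.AR
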