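import Pool.Agent.U143.AR.Perm
import Pool.Agent.U143.AR.Defs

/-!
# Towers of alternating extensions
-/

set_option autoImplicit false
set_option linter.unusedSectionVars false

namespace Pool.Agent.U143.AR

open Complex Filter Topology ComplexConjugate NumberField IsDedekindDomain Polynomial
  Pool.Agent.W401.Cheb Pool.Agent.W540.BE Pool.Agent.W353.L1 Pool.Agent.W353.AT
  Pool.Agent.TH526.DS
open Pool.Agent.H341R2 (lam)
open Pool.Agent.W353.NF (act act_apply act_trans fixn fixn_conj fixn_inv cz abs_cz fixn_le SzH vx)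
open Pool.Agent.W353.TP (HX)

/-- bounded virtual characters of the Galois group of an alternating tower -/
theorem tower_const_aux (b : ℝ) : ∃ m₀ : ℕ, ∀ (K : Type) [Field K] [NumberField K]
    (M F : IntermediateField K (AlgebraicClosure K)) [NumberField M] [NumberField F]
    (U : Subgroup (GK K)) [U.Normal], U = F.fixingSubgroup → IsGalois K M → IsGalois K F →
    IsAlternatingTower m₀ M F →
    ∀ θ : GK K ⧸ U → ℂ, Pool.Agent.W446.AS.Virt θ → (∀ q, ‖θ q‖ ≤ b) →
    ∀ x, ∀ a ∈ M.fixingSubgroup.map (QuotientGroup.mk' U), θ (x * a) = θ x := by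
  obtain ⟨m₀, hm₀⟩ := chain b
  refine ⟨m₀, fun K _ _ M F _ _ U _ hU hM hF hT θ hθ hb => ?_⟩
  obtain ⟨t, E, h0, ht, hst⟩ := hT
  obtain ⟨hUo, -⟩ := normal_fix F hF
  rw [← hU] at hUo
  have hfin : Finite (GK K ⧸ U) := Subgroup.quotient_finite_of_isOpen _ hUo
  have hle : ∀ i ≤ t, E i ≤ F := by
    intro i
    induction i with
    | zero => intro _; rw [h0]
    | succ i ih =>
      intro hi
      obtain ⟨n, -, h1, -⟩ := hst i (by omega)
      exact h1.trans (ih (by omega))
  have hgal : ∀ i ≤ t, IsGalois K (E i) := by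
    intro i hi
    rcases Nat.lt_or_ge i t with h | h
    · obtain ⟨n, -, -, -, h2, -⟩ := hst i h
      exact h2
    · have : i = t := le_antisymm hi h
      rw [this, ht]
      exact hM
  have hnor : ∀ i ≤ t, (E i).fixingSubgroup.Normal := by
    intro i hi
    have hg := hgal i hi
    have hfd : FiniteDimensional K F := fd_of_nf F
    have hfd' : FiniteDimensional K (E i) :=
      FiniteDimensional.of_injective (IntermediateField.inclusion (hle i hi)).toLinearMap
        (IntermediateField.inclusion_injective (hle i hi))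
    exact ((InfiniteGalois.isOpen_and_normal_iff_finite_and_isGalois (E i)).2 ⟨hfd', hg⟩).2
  have hUle : ∀ i ≤ t, U ≤ (E i).fixingSubgroup := fun i hi =>
    hU.le.trans (IntermediateField.fixingSubgroup_le (hle i hi))
  have hmem : ∀ i ≤ t, ∀ g : GK K, QuotientGroup.mk' U g ∈ (E i).fixingSubgroup.map
      (QuotientGroup.mk' U) ↔ g ∈ (E i).fixingSubgroup := by
    intro i hi g
    constructor
    · rintro ⟨a, ha, hag⟩
      have h1 : (QuotientGroup.mk a : GK K ⧸ U) = QuotientGroup.mk g := hag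
      rw [QuotientGroup.eq] at h1
      have h2 := (E i).fixingSubgroup.mul_mem ha (hUle i hi h1)
      rwa [mul_inv_cancel_left] at h2
    · intro h
      exact ⟨g, h, rfl⟩
  let C : ℕ → Subgroup (GK K ⧸ U) := fun i =>
    (E (min i t)).fixingSubgroup.map (QuotientGroup.mk' U)
  have h := hm₀ (GK K ⧸ U) t C (fun i => (hnor _ (min_le_right _ _)).map _
    (QuotientGroup.mk'_surjective U)) (by
      change (E (min 0 t)).fixingSubgroup.map (QuotientGroup.mk' U) = ⊥
      rw [Nat.zero_min, h0, ← hU]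
      exact QuotientGroup.map_mk'_self U) (fun i hi => by
      obtain ⟨n, hn, -, -, -, φ, h1, h2⟩ := hst i hi
      have hUφ : ∀ u ∈ U, φ u = 1 := by
        intro u hu
        have h3 : u ∈ φ.ker ⊓ (E (i + 1)).fixingSubgroup := by
          rw [h2]
          exact hUle i hi.le hu
        exact MonoidHom.mem_ker.1 h3.1
      refine ⟨n, hn, QuotientGroup.lift U φ (fun u hu => hUφ u hu), ?_, ?_⟩
      · change ((E (min (i + 1) t)).fixingSubgroup.map (QuotientGroup.mk' U)).map _ = _
        rw [min_eq_left (Nat.succ_le_of_lt hi), Subgroup.map_map, ← h1]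
        rfl
      · change _ ⊓ (E (min (i + 1) t)).fixingSubgroup.map (QuotientGroup.mk' U)
          = (E (min i t)).fixingSubgroup.map (QuotientGroup.mk' U)
        rw [min_eq_left (Nat.succ_le_of_lt hi), min_eq_left hi.le]
        ext q
        obtain ⟨g, rfl⟩ := QuotientGroup.mk'_surjective U q
        rw [Subgroup.mem_inf, hmem (i + 1) (Nat.succ_le_of_lt hi), hmem i hi.le, ← h2,
          Subgroup.mem_inf]
        rfl) θ hθ hb
  have hCt : C t = M.fixingSubgroup.map (QuotientGroup.mk' U) := by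
    change (E (min t t)).fixingSubgroup.map (QuotientGroup.mk' U) = _
    rw [min_self, ht]
  rw [hCt] at h
  exact h

/-- **Bounded virtual characters are constant on the cosets of alternating towers.** -/
theorem tower_const (b : ℝ) : ∃ m₀ : ℕ, ∀ (K : Type) [Field K] [NumberField K]
    (M F : IntermediateField K (AlgebraicClosure K)) [NumberField M] [NumberField F]
    [F.fixingSubgroup.Normal], IsGalois K M → IsGalois K F → IsAlternatingTower m₀ M F →
    ∀ θ : GK K ⧸ F.fixingSubgroup → ℂ, Pool.Agent.W446.AS.Virt θ → (∀ q, ‖θ q‖ ≤ b) →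
    ∀ x, ∀ a ∈ M.fixingSubgroup.map (QuotientGroup.mk' F.fixingSubgroup), θ (x * a) = θ x := by
  obtain ⟨m₀, hm₀⟩ := tower_const_aux b
  exact ⟨m₀, fun K _ _ M F _ _ _ hM hF hT => hm₀ K M F F.fixingSubgroup rfl hM hF hT⟩

section
variable {K : Type} [Field K] [NumberField K] {T : HeightOneSpectrum (𝓞 K) → ℝ} {s : ℝ}
  {M F : IntermediateField K (AlgebraicClosure K)} [NumberField M] [NumberField F]
  [F.fixingSubgroup.Normal] [Finite (GK K ⧸ F.fixingSubgroup)]

/-- new characters are orthogonal to functions constant on the cosets -/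
theorem pr_new_zero (hM : IsGalois K M) {θ : GK K ⧸ F.fixingSubgroup → ℂ}
    (hc : ∀ x, ∀ a ∈ M.fixingSubgroup.map (QuotientGroup.mk' F.fixingSubgroup), θ (x * a) = θ x)
    {n : ℕ} (χ : Representation ℂ (GK K) (Fin n → ℂ)) (hχ : IsNew M F χ) :
    Pool.Agent.W446.AS.pr θ (qrep F.fixingSubgroup χ hχ.2.1).character = 0 := by
  classical
  let _ : Fintype (GK K ⧸ F.fixingSubgroup) := Fintype.ofFinite _
  obtain ⟨hirr, htriv, a, ha, hane⟩ := hχ
  have hAn := (normal_fix M hM).2
  have hAbn : (M.fixingSubgroup.map (QuotientGroup.mk' F.fixingSubgroup)).Normal :=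
    hAn.map _ (QuotientGroup.mk'_surjective _)
  refine pr_zero_of_mean _ hc (fun g x => ?_) (fun g => ?_)
  · exact Representation.char_conj _ g x
  · have h1 := char_sum_zero (qrep F.fixingSubgroup χ htriv) (qrep_irr F.fixingSubgroup χ htriv hirr)
      (M.fixingSubgroup.map (QuotientGroup.mk' F.fixingSubgroup))
      ⟨QuotientGroup.mk a, ⟨a, ha, rfl⟩, hane⟩ g
    exact h1

/-- the class function of a permutation character -/
theorem exists_perm (hF : IsGalois K F) (L : IntermediateField K (AlgebraicClosure K))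
    [NumberField L] (hL : L ≤ F) : ∃ f : GK K ⧸ F.fixingSubgroup → ℂ,
      (∀ g : GK K, f (QuotientGroup.mk g) = fixn K L g) ∧ ∀ g x, f (x * g * x⁻¹) = f g := by
  have htriv : ∀ u ∈ F.fixingSubgroup, permRep K L u = 1 := by
    intro u hu
    have h1 : permRep K L u = LinearMap.funLeft ℂ ℂ ⇑((act K L u)⁻¹) := rfl
    rw [h1, act_triv hF hL u hu, inv_one]
    exact LinearMap.ext fun f => LinearMap.funLeft_id ℂ ℂ f
  refine ⟨(qrep F.fixingSubgroup (permRep K L) htriv).character, fun g => ?_, fun g x => ?_⟩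
  · exact permRep_char K L g
  · exact Representation.char_conj _ g x

variable (hs : 0 ≤ s) (hT : ∀ v, |T v| ≤ s) {σ : HeightOneSpectrum (𝓞 K) → GK K} {τ : ℝ}

include hs hT in
/-- **The mean value of the difference of the permutation characters over `L` and `L ∩ M`.** -/
theorem has_diff (hM : IsGalois K M) (hF : IsGalois K F)
    (hzero : ∀ (n : ℕ) (χ : Representation ℂ (GK K) (Fin n → ℂ)), IsNew M F χ →
      Lim T σ ⟨n, χ⟩ τ 0)
    (L : IntermediateField K (AlgebraicClosure K)) [NumberField L]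
    [NumberField (L ⊓ M : IntermediateField K (AlgebraicClosure K))] (hL : L ≤ F) :
    Has (fun v => T v * (((fixn K L (σ v) : ℝ) -
      fixn K (L ⊓ M : IntermediateField K (AlgebraicClosure K)) (σ v)) * cz τ v)) 0 := by
  classical
  obtain ⟨f, hf, hfc⟩ := exists_perm hF L hL
  obtain ⟨f', hf', hfc'⟩ := exists_perm hF (L ⊓ M) (inf_le_left.trans hL)
  let D : GK K ⧸ F.fixingSubgroup → ℂ := f - f'
  have hDc : ∀ g x, D (x * g * x⁻¹) = D g := by
    intro g x
    change f (x * g * x⁻¹) - f' (x * g * x⁻¹) = f g - f' g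
    rw [hfc, hfc']
  have hcoef : ∀ χ ∈ Pool.Agent.H541R3.ART.irrF (GK K ⧸ F.fixingSubgroup), ∃ c : ℝ,
      Pool.Agent.W446.AS.pr D χ = (c : ℂ) ∧
      Has (fun v => T v * (c * (χ (QuotientGroup.mk (σ v))⁻¹ * zz τ v).re)) 0 := by
    intro χ hχ
    obtain ⟨n, r, hr, rfl⟩ := Pool.Agent.H541R3.ART.mem_irrF.1 hχ
    let y : MRep (GK K) := infl F.fixingSubgroup ⟨n, r⟩
    have hyi : y.2.IsIrreducible := infl_irr F.fixingSubgroup ⟨n, r⟩ hr
    have hyU : ∀ u ∈ F.fixingSubgroup, y.2 u = 1 := infl_triv F.fixingSubgroup ⟨n, r⟩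
    have hyc : (qrep F.fixingSubgroup y.2 hyU).character = r.character := by
      funext q
      obtain ⟨g, rfl⟩ := QuotientGroup.mk_surjective q
      rfl
    have h1 := pr_perm L F.fixingSubgroup (act_triv hF hL) f hf y.2 hyi hyU
    have h2 := pr_perm (L ⊓ M) F.fixingSubgroup (act_triv hF (inf_le_left.trans hL)) f' hf' y.2
      hyi hyU
    rw [hyc] at h1 h2
    have h3 : Pool.Agent.W446.AS.pr D r.character =
        (Module.finrank ℂ (invC y.2 L.fixingSubgroup) : ℂ) -
        (Module.finrank ℂ (invC y.2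
          (L ⊓ M : IntermediateField K (AlgebraicClosure K)).fixingSubgroup) : ℂ) := by
      rw [← h1, ← h2]
      exact Pool.Agent.R389.pr_sub _ _ _
    by_cases hnew : ∃ a ∈ M.fixingSubgroup, y.2 a ≠ 1
    · refine ⟨(Module.finrank ℂ (invC y.2 L.fixingSubgroup) : ℝ) -
        (Module.finrank ℂ (invC y.2
          (L ⊓ M : IntermediateField K (AlgebraicClosure K)).fixingSubgroup) : ℝ), ?_, ?_⟩
      · rw [h3]
        push_cast
        rfl
      · have h4 : Has (fun v => T v * RR y.2 τ σ v) 0 := by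
          refine ⟨⟨s * n, fun v => ?_⟩, hzero n y.2 ⟨hyi, hyU, hnew⟩⟩
          rw [abs_mul]
          exact mul_le_mul (hT v) (abs_RR_le F.fixingSubgroup y.2 hyU _ _ _) (abs_nonneg _) hs
        refine (h4.const_mul ((Module.finrank ℂ (invC y.2 L.fixingSubgroup) : ℝ) -
          (Module.finrank ℂ (invC y.2
            (L ⊓ M : IntermediateField K (AlgebraicClosure K)).fixingSubgroup) : ℝ))).congr
          (fun v => ?_) (mul_zero _)
        have e : RR y.2 τ σ v = (r.character (QuotientGroup.mk (σ v))⁻¹ * zz τ v).re := rfl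
        rw [e, mul_left_comm]
    · push Not at hnew
      refine ⟨0, ?_, ?_⟩
      · rw [h3, fixed_inf hM L y.2 hnew, sub_self, Complex.ofReal_zero]
      · have h0 : Has (F := K) (fun _ => (0 : ℝ) * 1) (0 * 1) := has_one.const_mul 0
        refine h0.congr (fun v => ?_) (zero_mul _)
        ring
  choose! c hc hH using hcoef
  have h1 := Has.sum (Pool.Agent.H541R3.ART.irrF (GK K ⧸ F.fixingSubgroup)) hH
  refine h1.congr (fun v => ?_) (by simp)
  have e1 : ∑ χ ∈ Pool.Agent.H541R3.ART.irrF (GK K ⧸ F.fixingSubgroup),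
      T v * (c χ * (χ (QuotientGroup.mk (σ v))⁻¹ * zz τ v).re) =
      T v * (D (QuotientGroup.mk (σ v))⁻¹ * zz τ v).re := by
    rw [← Finset.mul_sum, Pool.Agent.R389.class_expand hDc, Finset.sum_mul, Complex.re_sum]
    congr 1
    refine Finset.sum_congr rfl fun χ hχ => ?_
    rw [hc χ hχ, mul_assoc, Complex.re_ofReal_mul]
  rw [e1]
  congr 1
  have e2 : D (QuotientGroup.mk (σ v))⁻¹ = (((fixn K L (σ v) : ℝ) -
      fixn K (L ⊓ M : IntermediateField K (AlgebraicClosure K)) (σ v) : ℝ) : ℂ) := by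
    change f (QuotientGroup.mk (σ v)⁻¹) - f' (QuotientGroup.mk (σ v)⁻¹) = _
    rw [hf, hf', fixn_inv, fixn_inv]
    push_cast
    rfl
  rw [e2, Complex.re_ofReal_mul]
  rfl

include hs hT in
/-- **The difference of the sizes over `L` and `L ∩ M`.** -/
theorem sizes_eq (hM : IsGalois K M) (hF : IsGalois K F)
    (hzero : ∀ (n : ℕ) (χ : Representation ℂ (GK K) (Fin n → ℂ)), IsNew M F χ →
      Lim T σ ⟨n, χ⟩ τ 0)
    (L : IntermediateField K (AlgebraicClosure K)) [NumberField L]
    [NumberField (L ⊓ M : IntermediateField K (AlgebraicClosure K))] (hL : L ≤ F)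
    {T' : HX K → ℝ} (hTT : ∀ x, T' x = T (vx x)) {A B : ℝ → ℝ}
    (hA : SzH T' (fun v => fixn K L (σ v) * cz τ v) A)
    (hB : SzH T' (fun v => fixn K (L ⊓ M : IntermediateField K (AlgebraicClosure K)) (σ v)
      * cz τ v) B) :
    Tendsto (fun ε => A ε - B ε) (𝓝[>] 0) (𝓝 0) := by
  have h1 := has_diff hs hT hM hF hzero L hL
  have h2 : SzH T' (fun v => (fixn K L (σ v) * cz τ v) + (-1) *
      (fixn K (L ⊓ M : IntermediateField K (AlgebraicClosure K)) (σ v) * cz τ v))
      (fun ε => A ε + (-1) * B ε) := by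
    refine hA.add (hB.const_mul (-1)) (N := s) (B := Module.finrank ℚ L * 1)
      (B' := Module.finrank ℚ (L ⊓ M : IntermediateField K (AlgebraicClosure K)) * 1)
      (fun x => ?_) (fun v => ?_) (fun v => ?_)
    · rw [hTT]
      exact hT _
    · rw [abs_mul, abs_of_nonneg (Nat.cast_nonneg _)]
      exact mul_le_mul (fixn_le _) (abs_cz _ _) (abs_nonneg _) (Nat.cast_nonneg _)
    · rw [abs_mul, abs_neg, abs_one, one_mul, abs_mul, abs_of_nonneg (Nat.cast_nonneg _)]
      exact mul_le_mul (fixn_le _) (abs_cz _ _) (abs_nonneg _) (Nat.cast_nonneg _)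
  exact lim_of_has (T' := T) hTT (h2.congr (Ψ' := fun v =>
    ((fixn K L (σ v) : ℝ) - fixn K (L ⊓ M : IntermediateField K (AlgebraicClosure K)) (σ v)) *
      cz τ v) (X' := fun ε => A ε - B ε) (fun v => by ring) (fun ε => by ring)) h1

end

end Pool.Agent.U143.AR
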