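import Pool.Agent.U143.AR.Edge
import Pool.Agent.U143.AR.Tower

/-!
# The rigidity of the orders and of the defects in alternating towers
-/

set_option autoImplicit false
set_option linter.unusedSectionVars false

namespace Pool.Agent.U143.AR

open Complex Filter Topology ComplexConjugate NumberField IsDedekindDomain Polynomial
  Pool.Agent.W401.Cheb Pool.Agent.W540.BE Pool.Agent.W353.L1 Pool.Agent.W353.AT
  Pool.Agent.TH526.DS
open Pool.Agent.W353.NF (act fixn cz TT size_fix SzH vx)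
open Pool.Agent.W353.TP (HX)
open Pool.Agent.H341R2 (lam)
open Pool.Agent.W353.EF (LFun)
open Pool.Agent.W353.EH (edgePoint size)
open Pool.Agent.W353.TD (ch rank IsPart Defect syD syD_real size_D tF_sub_le)
open Pool.Agent.W353.PV (tF size_X size_X0 syX syX_real lim_ord)

lemma heightFactor_nonneg (τ : ℝ) : 0 ≤ heightFactor τ := by
  unfold heightFactor
  have := Real.pi_pos
  split_ifs <;> positivity

lemma heightFactor_le (τ : ℝ) : heightFactor τ ≤ 1 := by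
  unfold heightFactor
  split_ifs
  · exact le_refl _
  · rw [div_le_one Real.pi_pos]
    exact Real.two_le_pi

/-- **The rigidity of the orders on the edge line in alternating towers.** -/
theorem edgeRigidity (N : ℕ) : ∃ m₀ : ℕ, ∀ (K : Type) [Field K] [NumberField K] (l : ℕ)
    (X : Set (MvPolynomial (Fin l) (𝓞 K))) (d i : ℕ), i ≤ 2 * d → EdgeRigidity X d i N m₀ := by
  classical
  obtain ⟨m₀, hm₀⟩ := tower_const (2 * N : ℝ)
  refine ⟨m₀, fun K _ _ l X d i hi => ?_⟩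
  choose σ hσ using exists_isFrob (F := K)
  intro M F _ _ τ hM hF hMF hex
  have hT : ∀ v, |tF X d i N K v| ≤ (N : ℝ) := fun v => abs_tr_le _ _ _
  have hs0 : (0 : ℝ) ≤ N := Nat.cast_nonneg _
  obtain ⟨hUo, hUn⟩ := normal_fix F hF
  have hfin : Finite (GK K ⧸ F.fixingSubgroup) := Subgroup.quotient_finite_of_isOpen _ hUo
  have hlimk : ∀ (r : ℕ) (χ : Representation ℂ (GK K) (Fin r → ℂ)),
      (∀ u ∈ F.fixingSubgroup, χ u = 1) → ∀ k : ℤ,
      TwistOrder X d i N χ τ k → Lim (tF X d i N K) σ ⟨r, χ⟩ τ ((-k : ℤ) : ℝ) := by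
    intro r χ hχ k hk
    obtain ⟨B, hB, hord⟩ := hk
    have h1 := (tw_size hi F.fixingSubgroup χ hχ τ B hB σ hσ).2
    have h2 := h1.add (tw_lim hi F.fixingSubgroup χ hχ τ B hB hord)
    unfold Lim
    rw [zero_add] at h2
    push_cast
    refine h2.congr fun ε => ?_
    ring
  have hAn : (M.fixingSubgroup.map (QuotientGroup.mk' F.fixingSubgroup)).Normal :=
    (normal_fix M hM).2.map _ (QuotientGroup.mk'_surjective _)
  have hnewA : ∀ (r : ℕ) (χ : Representation ℂ (GK K) (Fin r → ℂ)), χ.IsIrreducible →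
      ∀ h : ∀ u ∈ F.fixingSubgroup, χ u = 1,
      (∃ a ∈ M.fixingSubgroup.map (QuotientGroup.mk' F.fixingSubgroup),
        (qrep F.fixingSubgroup χ h) a ≠ 1) → IsNew M F χ := by
    rintro r χ h1 h2 ⟨a, ⟨g, hg, rfl⟩, hane⟩
    exact ⟨h1, h2, g, hg, hane⟩
  obtain ⟨θ, hθ, hb, hpr⟩ := exists_theta hs0 hT hσ F.fixingSubgroup hUo
    (M.fixingSubgroup.map (QuotientGroup.mk' F.fixingSubgroup)) (τ := τ) (fun r χ h1 h2 h3 => by
      obtain ⟨k, hk⟩ := hex r χ (hnewA r χ h1 h2 h3)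
      exact ⟨-k, hlimk r χ h2 k hk⟩)
  have hc := hm₀ K M F hM hF hMF θ hθ fun q => (hb q).trans (by
    have := mul_le_mul_of_nonneg_left (heightFactor_le τ) hs0
    linarith)
  have hzero : ∀ (r : ℕ) (χ : Representation ℂ (GK K) (Fin r → ℂ)), IsNew M F χ →
      Lim (tF X d i N K) σ ⟨r, χ⟩ τ 0 := by
    intro r χ hχ
    obtain ⟨k, hk⟩ := hex r χ hχ
    have h0 := hlimk r χ hχ.2.1 k hk
    obtain ⟨g, hg, hgne⟩ := hχ.2.2
    have h1 := hpr r χ hχ.1 hχ.2.1 ⟨QuotientGroup.mk g, ⟨g, hg, rfl⟩, hgne⟩ _ h0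
    rw [pr_new_zero hM hc χ hχ] at h1
    have h2 : (((-k : ℤ) : ℝ)) = 0 := by exact_mod_cast h1.symm
    rw [h2] at h0
    exact h0
  have hnew : ∀ (r : ℕ) (χ : Representation ℂ (GK K) (Fin r → ℂ)), IsNew M F χ → ∀ δ : ℤ,
      Lim (tF X d i N K) σ ⟨r, χ⟩ τ δ → δ = 0 := by
    intro r χ hχ δ hδ
    have h1 : (δ : ℝ) = 0 := tendsto_nhds_unique hδ (hzero r χ hχ)
    exact_mod_cast h1
  have e0 : ((((i : ℝ) / 2 : ℝ) : ℂ) + 1 + (τ : ℂ) * Complex.I) = edgePoint i τ := edge_eq τ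
  refine ⟨fun r χ hχ => ⟨fun B hB => ?_, fun k hk => ?_⟩, fun L _ _ hL => ?_⟩
  · have h1 := (tw_size hi F.fixingSubgroup χ hχ.2.1 τ B hB σ hσ).2
    have hδ := hzero r χ hχ
    unfold Lim at hδ
    have h2 := hδ.sub h1
    rw [sub_zero] at h2
    refine h2.congr fun ε => ?_
    ring
  · have h1 := hnew r χ hχ _ (hlimk r χ hχ.2.1 k hk)
    omega
  · have hsz : ∀ (E : IntermediateField K (AlgebraicClosure K)) [NumberField E]
        (B : HeightOneSpectrum (𝓞 E) → ℂ[X]), W353.EH.IsEulerSystem X d i N τ B →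
        (∀ᶠ ε : ℝ in 𝓝[>] 0, LFun B (edgePoint i τ + ε) ≠ 0) ∧
        SzH (TT (syX X d i N)) (fun v => fixn K E (σ v) * cz τ v) (size i τ B) := by
      intro E _ B hB
      have h := size_X hi B hB.1 τ (by rw [e0]; exact hB.2) (fun _ : Fin 0 => (1 : 𝓞 E))
      rw [e0] at h
      exact ⟨h.1, size_fix _ (syX_real X d i N) σ hσ h.2⟩
    have hTT : ∀ x, TT (syX X d i N) x = tF X d i N K (vx x) := by
      intro x
      have e3 : TT (syX X d i N) x =
          ∑ _j ∈ ({()} : Finset Unit), (((tF X d i N K (vx x) : ℝ) : ℂ)).re := rfl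
      rw [e3, Finset.sum_singleton, Complex.ofReal_re]
    have hmain : ∀ (B : HeightOneSpectrum (𝓞 L) → ℂ[X])
        (B' : HeightOneSpectrum (𝓞 (L ⊓ M : IntermediateField K (AlgebraicClosure K))) → ℂ[X]),
        W353.EH.IsEulerSystem X d i N τ B → W353.EH.IsEulerSystem X d i N τ B' →
        Tendsto (fun ε : ℝ => size i τ B ε - size i τ B' ε) (𝓝[>] 0) (𝓝 0) :=
      fun B B' hB hB' => sizes_eq hs0 hT hM hF hzero L hL hTT (hsz L B hB).2
        (hsz _ B' hB').2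
    refine ⟨hmain, ?_⟩
    have hord : ∀ (E : IntermediateField K (AlgebraicClosure K)) [NumberField E]
        (B : HeightOneSpectrum (𝓞 E) → ℂ[X]), W353.EH.IsEulerSystem X d i N τ B → ∀ k : ℤ,
        W353.EH.HasOrder i τ B k → Tendsto (size i τ B) (𝓝[>] 0) (𝓝 (-(k : ℝ))) := by
      intro E _ B hB k hk
      obtain ⟨Λ, h1, h2, h3⟩ := hk
      exact lim_ord (hsz E B hB).1 h1 (h2.mono fun s hs hs' => hs (by
        rw [edge_re] at hs'
        exact hs')) h3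
    rintro k k' ⟨hn1, B, hB, h1⟩ ⟨hn2, B', hB', h2⟩
    have h3 := hmain B B' hB hB'
    have h4 := (hord L B hB k h1).sub (hord _ B' hB' k' h2)
    have h5 := tendsto_nhds_unique h3 h4
    have h6 : (k : ℝ) = k' := by linarith
    exact_mod_cast h6

/-- **The rigidity of the defects in alternating towers.** -/
theorem defectRigidity (s : ℕ) : ∃ m₀ : ℕ, ∀ (K : Type) [Field K] [NumberField K] (l : ℕ)
    (X : Set (MvPolynomial (Fin l) (𝓞 K))) (d m N : ℕ) (V : Type) [AddCommGroup V] [Module ℚ V]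
    [FiniteDimensional ℚ V] (ρ : Representation ℚ (GK K) V), m ≤ d → IsPart X d m N ρ →
    N - Module.finrank ℚ V ≤ s → DefectRigidity X d m N m₀ ρ := by
  classical
  obtain ⟨m₀, hm₀⟩ := tower_const (2 * s : ℝ)
  refine ⟨m₀, fun K _ _ l X d m N V _ _ _ ρ hmd hpart hrk => ?_⟩
  have hi : 2 * m ≤ 2 * d := by omega
  choose σ hσ using exists_isFrob (F := K)
  obtain ⟨hρ, hV⟩ := hpart
  have hgood : ∀ᶠ v in cofinite, |tF X d (2 * m) N K v - ch ρ (σ v)⁻¹| ≤ (s : ℕ) := by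
    refine hV.mono fun v hv => ?_
    obtain ⟨α, h1, h2⟩ := hv (σ v) (hσ v)
    refine (tF_sub_le (ρ := ρ) hi (σ := σ v) h1 h2).trans ?_
    exact_mod_cast hrk
  intro M F _ _ hM hF hMF hex
  have hT : ∀ v, |tC ρ X d (2 * m) N s σ v| ≤ (s : ℝ) := fun v => abs_tC _ _ _ _ _ _ _ _
  have hs0 : (0 : ℝ) ≤ s := Nat.cast_nonneg _
  obtain ⟨hUo, hUn⟩ := normal_fix F hF
  have hfin : Finite (GK K ⧸ F.fixingSubgroup) := Subgroup.quotient_finite_of_isOpen _ hUo
  have hart : ∀ (r : ℕ) (χ : Representation ℂ (GK K) (Fin r → ℂ)),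
      (∀ u ∈ F.fixingSubgroup, χ u = 1) → IsArtin χ := fun r χ h => ⟨F.fixingSubgroup, hUo, h⟩
  -- the defects as limits
  have hlimδ : ∀ (r : ℕ) (χ : Representation ℂ (GK K) (Fin r → ℂ)),
      (∀ u ∈ F.fixingSubgroup, χ u = 1) → ∀ δ : ℤ,
      TwistDefect X d m N ρ χ δ →
      Lim (tC ρ X d (2 * m) N s σ) σ ⟨r, χ⟩ 0 ((-δ : ℤ) : ℝ) := by
    intro r χ hχ δ hδ
    obtain ⟨B, hB, hlim⟩ := hδ
    have h1 := (tw_C (s := s) hi hσ hgood hρ ⟨r, χ⟩ (hart r χ hχ) B hB).2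
    have h2 := h1.add (hlim.sub_const (twistRank ρ χ : ℝ))
    unfold Lim
    have e : (0 : ℝ) + ((twistRank ρ χ : ℝ) - δ - twistRank ρ χ) = ((-δ : ℤ) : ℝ) := by
      push_cast
      ring
    rw [e] at h2
    refine h2.congr fun ε => ?_
    ring
  have hAn : (M.fixingSubgroup.map (QuotientGroup.mk' F.fixingSubgroup)).Normal :=
    (normal_fix M hM).2.map _ (QuotientGroup.mk'_surjective _)
  have hnewA : ∀ (r : ℕ) (χ : Representation ℂ (GK K) (Fin r → ℂ)), χ.IsIrreducible →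
      ∀ h : ∀ u ∈ F.fixingSubgroup, χ u = 1,
      (∃ a ∈ M.fixingSubgroup.map (QuotientGroup.mk' F.fixingSubgroup),
        (qrep F.fixingSubgroup χ h) a ≠ 1) → IsNew M F χ := by
    rintro r χ h1 h2 ⟨a, ⟨g, hg, rfl⟩, hane⟩
    exact ⟨h1, h2, g, hg, hane⟩
  obtain ⟨θ, hθ, hb, hpr⟩ := exists_theta hs0 hT hσ F.fixingSubgroup hUo
    (M.fixingSubgroup.map (QuotientGroup.mk' F.fixingSubgroup)) (τ := 0) (fun r χ h1 h2 h3 => by
      obtain ⟨k, hk⟩ := hex r χ (hnewA r χ h1 h2 h3)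
      exact ⟨-k, hlimδ r χ h2 k hk⟩)
  have hc := hm₀ K M F hM hF hMF θ hθ fun q => (hb q).trans (by
    rw [heightFactor_zero, mul_one])
  have hzero : ∀ (r : ℕ) (χ : Representation ℂ (GK K) (Fin r → ℂ)), IsNew M F χ →
      Lim (tC ρ X d (2 * m) N s σ) σ ⟨r, χ⟩ 0 0 := by
    intro r χ hχ
    obtain ⟨k, hk⟩ := hex r χ hχ
    have h0 := hlimδ r χ hχ.2.1 k hk
    obtain ⟨g, hg, hgne⟩ := hχ.2.2
    have h1 := hpr r χ hχ.1 hχ.2.1 ⟨QuotientGroup.mk g, ⟨g, hg, rfl⟩, hgne⟩ _ h0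
    rw [pr_new_zero hM hc χ hχ] at h1
    have h2 : (((-k : ℤ) : ℝ)) = 0 := by exact_mod_cast h1.symm
    rw [h2] at h0
    exact h0
  have hnew : ∀ (r : ℕ) (χ : Representation ℂ (GK K) (Fin r → ℂ)), IsNew M F χ → ∀ δ : ℤ,
      Lim (tC ρ X d (2 * m) N s σ) σ ⟨r, χ⟩ 0 δ → δ = 0 := by
    intro r χ hχ δ hδ
    have h1 : (δ : ℝ) = 0 := tendsto_nhds_unique hδ (hzero r χ hχ)
    exact_mod_cast h1
  refine ⟨fun r χ hχ => ⟨fun B hB => ?_, fun δ hδ => ?_⟩, fun L _ _ hL => ?_⟩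
  · have h1 := (tw_C (s := s) hi hσ hgood hρ ⟨r, χ⟩ (hart r χ hχ.2.1) B hB).2
    have hδ := hzero r χ hχ
    unfold Lim at hδ
    have h2 := (hδ.sub h1).add_const (twistRank ρ χ : ℝ)
    rw [sub_zero, zero_add] at h2
    refine h2.congr fun ε => ?_
    ring
  · have h1 := hnew r χ hχ _ (hlimδ r χ hχ.2.1 δ hδ)
    omega
  · have hSz : ∀ (E : IntermediateField K (AlgebraicClosure K)) [NumberField E]
        (B : HeightOneSpectrum (𝓞 E) → ℂ[X]), W353.EF.IsEulerSystem X d (2 * m) N B →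
        SzH (TT (syD ρ X d (2 * m) N s σ)) (fun v => fixn K E (σ v) * cz 0 v)
          (fun ε => W353.EF.size (2 * m) B ε - rank ρ E) := by
      intro E _ B hB
      have h1 := size_X0 hi B hB.1 hB.2 (fun _ : Fin 0 => (1 : 𝓞 E))
      have h2 := size_D ρ X d (2 * m) N s σ hσ hgood hρ _ _ h1.2 E.val
      have h3 := size_fix _ (syD_real ρ X d (2 * m) N s σ) σ hσ h2
      have hr : rank ρ E = Module.finrank ℚ (W353.TD.inv ρ E.val.fieldRange.fixingSubgroup) := by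
        rw [W353.TD.inv_eq, IntermediateField.fieldRange_val]
        rfl
      refine h3.congr (fun v => rfl) (fun ε => ?_)
      rw [hr]
      rfl
    have hTT : ∀ x, TT (syD ρ X d (2 * m) N s σ) x = tC ρ X d (2 * m) N s σ (vx x) := by
      intro x
      have e3 : TT (syD ρ X d (2 * m) N s σ) x =
          ∑ _j ∈ ({()} : Finset Unit), (((W353.TD.tD ρ X d (2 * m) N s σ x : ℝ) : ℂ)).re := rfl
      rw [e3, Finset.sum_singleton, Complex.ofReal_re]
      rfl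
    have hmain : ∀ (B : HeightOneSpectrum (𝓞 L) → ℂ[X])
        (B' : HeightOneSpectrum (𝓞 (L ⊓ M : IntermediateField K (AlgebraicClosure K))) → ℂ[X]),
        W353.EF.IsEulerSystem X d (2 * m) N B → W353.EF.IsEulerSystem X d (2 * m) N B' →
        Tendsto (fun ε : ℝ => (W353.EF.size (2 * m) B ε - rank ρ L) -
          (W353.EF.size (2 * m) B' ε -
            rank ρ (L ⊓ M : IntermediateField K (AlgebraicClosure K)))) (𝓝[>] 0) (𝓝 0) :=
      fun B B' hB hB' =>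
        sizes_eq hs0 hT hM hF hzero L hL hTT (hSz L B hB) (hSz _ B' hB')
    refine ⟨hmain, ?_⟩
    rintro δ δ' ⟨hn1, B, hB, h1⟩ ⟨hn2, B', hB', h2⟩
    have h3 := hmain B B' hB hB'
    have h4 := (h1.sub_const (rank ρ L : ℝ)).sub (h2.sub_const
      (rank ρ (L ⊓ M : IntermediateField K (AlgebraicClosure K)) : ℝ))
    have h5 := tendsto_nhds_unique h3 h4
    have h6 : (δ : ℝ) = δ' := by linarith
    exact_mod_cast h6

end Pool.Agent.U143.AR
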