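import Pool.Agent.U143.AR.Edge

/-!
# The permutation characters of the intermediate fields
-/

set_option autoImplicit false
set_option linter.unusedSectionVars false

namespace Pool.Agent.U143.AR

open Complex Filter Topology ComplexConjugate NumberField IsDedekindDomain Polynomial
  Pool.Agent.W401.Cheb Pool.Agent.W540.BE Pool.Agent.W353.L1 Pool.Agent.W353.AT
  Pool.Agent.TH526.DS
open Pool.Agent.H341R2 (lam)
open Pool.Agent.W353.NF (act act_apply act_trans fixn fixn_conj fixn_inv cz abs_cz fixn_le SzH vx)

section
variable {K : Type} [Field K] [NumberField K]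

/-- the pairing of a permutation character with an irreducible character -/
theorem pr_perm (L : IntermediateField K (AlgebraicClosure K)) [NumberField L]
    (U : Subgroup (GK K)) [U.Normal] [Finite (GK K ⧸ U)] (hact : ∀ u ∈ U, act K L u = 1)
    (f : GK K ⧸ U → ℂ) (hf : ∀ g : GK K, f (QuotientGroup.mk g) = fixn K L g)
    {n : ℕ} (y : Representation ℂ (GK K) (Fin n → ℂ)) (hy : y.IsIrreducible)
    (hyU : ∀ u ∈ U, y u = 1) :
    Pool.Agent.W446.AS.pr f (qrep U y hyU).character
      = (Module.finrank ℂ (invC y L.fixingSubgroup) : ℂ) := by
  classical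
  obtain ⟨Ls, hL, hfix⟩ := fix_decomp K L U hact
  have h1 := mult_eq (L.val) U hact Ls hL hfix ⟨n, y⟩ hy hyU
  rw [IntermediateField.fieldRange_val] at h1
  rw [← h1]
  have h2 : ∀ L' : List (MRep (GK K)), (∀ x ∈ L', x.2.IsIrreducible ∧ ∀ u ∈ U, x.2 u = 1) →
      ∀ f' : GK K ⧸ U → ℂ, (∀ g : GK K, f' (QuotientGroup.mk g) = (L'.map fun x => x.2.character g).sum) →
      Pool.Agent.W446.AS.pr f' (qrep U y hyU).character = (mult L' ⟨n, y⟩ : ℂ) := by
    intro L'
    induction L' with
    | nil =>
      intro _ f' hf'
      have e : f' = 0 := by
        funext q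
        obtain ⟨g, rfl⟩ := QuotientGroup.mk_surjective q
        rw [hf']
        simp
      rw [e, Pool.Agent.W446.AS.pr_zero_left]
      unfold mult
      simp
    | cons x L' ih =>
      intro hL' f' hf'
      obtain ⟨hx1, hx2⟩ := hL' x List.mem_cons_self
      have e : f' = (qrep U x.2 hx2).character + (f' - (qrep U x.2 hx2).character) := by
        abel
      have h3 := ih (fun z hz => hL' z (List.mem_cons_of_mem _ hz))
        (f' - (qrep U x.2 hx2).character) (fun g => by
          rw [Pi.sub_apply, hf', List.map_cons, List.sum_cons]
          change x.2.character g + _ - x.2.character g = _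
          ring)
      have h4 := ortho U x.2 hx2 hx1 y hyU hy
      rw [e, Pool.Agent.W446.AS.pr_add, h3]
      have h5 : Pool.Agent.W446.AS.pr (qrep U x.2 hx2).character (qrep U y hyU).character
          = if Nonempty (x.2.Equiv y) then 1 else 0 := h4
      rw [h5]
      unfold mult
      rw [List.map_cons, List.sum_cons]
      push_cast
      rfl
  exact h2 Ls hL f fun g => by rw [hf, hfix]

/-- an open normal subgroup fixing a normal field acts trivially on the embeddings of a subfield -/
theorem act_triv {F L : IntermediateField K (AlgebraicClosure K)} [NumberField L]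
    (hF : IsGalois K F) (hLF : L ≤ F) : ∀ u ∈ F.fixingSubgroup, act K L u = 1 := by
  intro u hu
  refine Equiv.ext fun i => ?_
  change act K L u i = i
  rw [act_fix_iff]
  refine IntermediateField.fixingSubgroup_le ?_ hu
  obtain ⟨g, hg⟩ := act_trans K L L.val i
  have hn : Normal K F := inferInstance
  have h1 : F.map (g : AlgebraicClosure K →ₐ[K] AlgebraicClosure K) ≤ F :=
    IntermediateField.normal_iff_forall_map_le.1 hn _
  rintro _ ⟨x, rfl⟩
  rw [← hg, act_apply]
  exact h1 ⟨x, hLF x.2, rfl⟩

/-- fixed vectors over `F` and `F ∩ M` -/
theorem fixed_inf {M : IntermediateField K (AlgebraicClosure K)} [NumberField M]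
    (hM : IsGalois K M) (F : IntermediateField K (AlgebraicClosure K)) {n : ℕ}
    (x : Representation ℂ (GK K) (Fin n → ℂ)) (hx : ∀ u ∈ M.fixingSubgroup, x u = 1) :
    invC x F.fixingSubgroup = invC x (F ⊓ M).fixingSubgroup := by
  have hU : IsOpen (M.fixingSubgroup : Set (GK K)) := (normal_fix M hM).1
  have hclosed : ∀ H : Subgroup (GK K), IsOpen (H : Set (GK K)) →
      (IntermediateField.fixedField H).fixingSubgroup = H := fun H hH =>
    InfiniteGalois.fixingSubgroup_fixedField ⟨H, H.isClosed_of_isOpen hH⟩
  apply le_antisymm
  · intro w hw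
    let H : Subgroup (GK K) :=
      { carrier := {g | x g w = w}
        one_mem' := by
          change x 1 w = w
          rw [map_one]; rfl
        mul_mem' := fun {g g'} hg hg' => by
          change x (g * g') w = w
          rw [map_mul]
          exact (congrArg (x g) hg').trans hg
        inv_mem' := fun {g} hg => by
          change x g⁻¹ w = w
          have h : x g w = w := hg
          conv_lhs => rw [← h]
          have h3 : x g⁻¹ * x g = 1 := by rw [← map_mul, inv_mul_cancel, map_one]
          exact LinearMap.congr_fun h3 w }
    have hUH : M.fixingSubgroup ≤ H := by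
      intro u hu
      change x u w = w
      rw [hx u hu]
      rfl
    have hFH : F.fixingSubgroup ≤ H := fun g hg => (mem_invC _ _ _).1 hw g hg
    have hHo : IsOpen (H : Set (GK K)) := Subgroup.isOpen_mono hUH hU
    have h4 : IntermediateField.fixedField H ≤ F ⊓ M := by
      refine le_inf ?_ ?_
      · have h5 : IntermediateField.fixedField H ≤
            IntermediateField.fixedField F.fixingSubgroup := by
          intro z hz
          rw [IntermediateField.mem_fixedField_iff] at hz ⊢
          exact fun g hg => hz g (hFH hg)
        rwa [InfiniteGalois.fixedField_fixingSubgroup] at h5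
      · have h5 : IntermediateField.fixedField H ≤
            IntermediateField.fixedField M.fixingSubgroup := by
          intro z hz
          rw [IntermediateField.mem_fixedField_iff] at hz ⊢
          exact fun g hg => hz g (hUH hg)
        rwa [InfiniteGalois.fixedField_fixingSubgroup] at h5
    have h5 : (F ⊓ M).fixingSubgroup ≤ H := by
      rw [← hclosed H hHo]
      exact IntermediateField.fixingSubgroup_le h4
    rw [mem_invC]
    exact fun g hg => h5 hg
  · intro w hw
    rw [mem_invC] at hw ⊢
    exact fun g hg => hw g (IntermediateField.fixingSubgroup_le inf_le_left hg)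

end

end Pool.Agent.U143.AR
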