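import Pool.Agent.U143.AR.Alt

/-!
# Bounded virtual characters of groups with a large alternating normal section
-/

set_option autoImplicit false
set_option linter.unusedSectionVars false

namespace Pool.Agent.U143.AR

open Equiv Equiv.Perm Pool.Agent.W446.AS Pool.Agent.W353.SN
open Pool.Agent.H302R5 (push)

/-- **Bounded virtual characters of large symmetric groups.** -/
theorem sym_const (b : ℝ) : ∃ n₀ : ℕ, ∀ n, n₀ ≤ n → ∀ θ : Perm (Fin n) → ℂ,
    Virt θ → (∀ g, ‖θ g‖ ≤ b) → ∀ g h, sign g = sign h → θ g = θ h := by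
  classical
  obtain ⟨n₀, hn₀⟩ := big b
  refine ⟨n₀, fun n hn θ hθ hb g h hgh => ?_⟩
  have hs : ∀ r : Setoid (Fin n), ∃ k : ℤ, ∑ᶠ h : yg r, θ h = k * Nat.card (yg r) := by
    intro r
    have : Fintype (yg r) := Fintype.ofFinite _
    obtain ⟨k, hk⟩ := mean_int (hθ.comp (yg r).subtype)
    refine ⟨k, ?_⟩
    rw [finsum_eq_sum_of_fintype]
    exact hk
  have hre : YS (fun g => (θ g).re) := by
    intro r
    obtain ⟨k, hk⟩ := hs r
    have : Fintype (yg r) := Fintype.ofFinite _
    refine ⟨k, ?_⟩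
    rw [finsum_eq_sum_of_fintype] at hk ⊢
    have h1 := congrArg Complex.re hk
    rw [Complex.re_sum] at h1
    rw [h1]
    have e : ((k : ℂ) * (Nat.card (yg r) : ℂ)) = ((k * Nat.card (yg r) : ℝ) : ℂ) := by
      push_cast; rfl
    rw [e, Complex.ofReal_re]
  have him : YS (fun g => (θ g).im) := by
    intro r
    obtain ⟨k, hk⟩ := hs r
    have : Fintype (yg r) := Fintype.ofFinite _
    refine ⟨0, ?_⟩
    rw [finsum_eq_sum_of_fintype] at hk ⊢
    have h1 := congrArg Complex.im hk
    rw [Complex.im_sum] at h1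
    rw [h1]
    have e : ((k : ℂ) * (Nat.card (yg r) : ℂ)) = ((k * Nat.card (yg r) : ℝ) : ℂ) := by
      push_cast; rfl
    rw [e, Complex.ofReal_im]
    simp
  obtain ⟨α, β, h1⟩ := hn₀ (Fin n) (by rw [Fintype.card_fin]; omega) (fun g => (θ g).re)
    (fun g u => by simp only [hθ.conj]) hre (fun g => (Complex.abs_re_le_norm _).trans (hb g))
  obtain ⟨α', β', h2⟩ := hn₀ (Fin n) (by rw [Fintype.card_fin]; omega) (fun g => (θ g).im)
    (fun g u => by simp only [hθ.conj]) him (fun g => (Complex.abs_im_le_norm _).trans (hb g))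
  apply Complex.ext
  · have e1 := h1 g
    have e2 := h1 h
    simp only at e1 e2
    rw [e1, e2, hgh]
  · have e1 := h2 g
    have e2 := h2 h
    simp only at e1 e2
    rw [e1, e2, hgh]

/-- the two cases together -/
theorem quo_const (b : ℝ) : ∃ n₀ : ℕ, ∀ n, n₀ ≤ n → ∀ (Q : Type) [Group Q] [Finite Q]
    (j : Q →* Perm (Fin n)), Function.Injective j → alternatingGroup (Fin n) ≤ j.range →
    ∀ θ : Q → ℂ, Virt θ → (∀ g, ‖θ g‖ ≤ b) → ∀ g h : Q, j h ∈ alternatingGroup (Fin n) →
      θ (g * h) = θ g := by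
  classical
  obtain ⟨n₁, h₁⟩ := alt_const b
  obtain ⟨n₂, h₂⟩ := sym_const b
  refine ⟨max n₁ n₂, fun n hn Q _ _ j hj hA θ hθ hb g h hh => ?_⟩
  have hn1 : n₁ ≤ n := (le_max_left _ _).trans hn
  have hn2 : n₂ ≤ n := (le_max_right _ _).trans hn
  by_cases hex : ∃ q, j q ∉ alternatingGroup (Fin n)
  · obtain ⟨q, hq⟩ := hex
    have hsurj : Function.Surjective j := by
      intro p
      by_cases hp : p ∈ alternatingGroup (Fin n)
      · exact hA hp
      · have h3 : p * (j q)⁻¹ ∈ alternatingGroup (Fin n) := by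
          rw [mem_alternatingGroup, map_mul, map_inv]
          rw [mem_alternatingGroup] at hp hq
          rw [(Int.units_eq_one_or (sign p)).resolve_left hp,
            (Int.units_eq_one_or (sign (j q))).resolve_left hq]
          decide
        obtain ⟨y, hy⟩ := hA h3
        exact ⟨y * q, by rw [map_mul, hy]; group⟩
    let e : Q ≃* Perm (Fin n) := MulEquiv.ofBijective j ⟨hj, hsurj⟩
    have h4 := h₂ n hn2 (fun p => θ (e.symm p)) (hθ.comp e.symm.toMonoidHom) (fun p => hb _)
      (e (g * h)) (e g) (by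
        have : e h = j h := rfl
        rw [map_mul, map_mul, this, mem_alternatingGroup.1 hh, mul_one])
    simpa using h4
  · push Not at hex
    let j' : Q →* alternatingGroup (Fin n) := j.codRestrict _ hex
    have hbij : Function.Bijective j' := by
      refine ⟨fun a b hab => hj (congrArg Subtype.val hab), fun p => ?_⟩
      obtain ⟨y, hy⟩ := hA p.2
      exact ⟨y, Subtype.ext hy⟩
    let e : Q ≃* alternatingGroup (Fin n) := MulEquiv.ofBijective j' hbij
    have h3 := h₁ n hn1 (fun p => θ (e.symm p)) (hθ.comp e.symm.toMonoidHom) (fun p => hb _)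
    have h4 : ∀ q, θ q = θ (e.symm 1) := by
      intro q
      have := h3 (e q)
      simpa using this
    rw [h4 (g * h), h4 g]

open Classical in
/-- the dual of a finite commutative group -/
lemma exists_dual (Z : Type) [Group Z] [Finite Z] (hc : ∀ a b : Z, a * b = b * a) :
    ∃ (ι : Type) (_ : Fintype ι) (μ : ι → (Z →* ℂˣ)), ∀ z : Z,
      ∑ i, ((μ i z : ℂˣ) : ℂ) = if z = 1 then (Nat.card Z : ℂ) else 0 := by
  classical
  have hfin : Fintype Z := Fintype.ofFinite _
  let _ : CommGroup Z := { (inferInstance : Group Z) with mul_comm := hc }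
  let _ : Fintype (Additive Z) := hfin
  refine ⟨AddChar (Additive Z) ℂ, inferInstance, fun ψ =>
    MonoidHom.toHomUnits (G := Z) (ψ.toMonoidHom : Multiplicative (Additive Z) →* ℂ), fun z => ?_⟩
  have h := AddChar.sum_apply_eq_ite (α := Additive Z) (Additive.ofMul z)
  have e : (if (Additive.ofMul z : Additive Z) = 0 then (Fintype.card (Additive Z) : ℂ) else 0)
      = if z = 1 then (Nat.card Z : ℂ) else 0 := by
    have e1 : ((Additive.ofMul z : Additive Z) = 0) = (z = 1) := rfl
    have e2 : (Fintype.card (Additive Z)) = Nat.card Z := by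
      rw [Nat.card_eq_fintype_card]
      rfl
    simp only [e1, e2]
  rw [← e, ← h]
  rfl

end Pool.Agent.U143.AR
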