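import Pool.Agent.U143.EQ.Main

/-!
# Virtual characters: products with linear characters, norms
-/

set_option autoImplicit false
set_option linter.unusedSectionVars false

namespace Pool.Agent.U143.AR

open Pool.Agent.H302R2 Pool.Agent.H302R3 Pool.Agent.H541R3.ART Pool.Agent.W446.AS Pool.Agent.R389
open Pool.Agent.H302R5 (push)

variable {G : Type} [Group G] [Finite G]

lemma virt_inv {θ : G → ℂ} (hθ : Virt θ) (g : G) : θ g⁻¹ = (starRingEnd ℂ) (θ g) := by
  induction hθ using AddSubgroup.closure_induction with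
  | mem χ hχ => exact Pool.Agent.U143.EQ.irr_star hχ g
  | zero => simp
  | add a b _ _ ha hb => rw [Pi.add_apply, Pi.add_apply, ha, hb, map_add]
  | neg a _ ha => rw [Pi.neg_apply, Pi.neg_apply, ha, map_neg]

/-- the product with a linear character -/
lemma virt_lin {θ : G → ℂ} (hθ : Virt θ) (μ : G →* ℂˣ) : Virt (fun g => θ g * ((μ g : ℂˣ) : ℂ)) := by
  induction hθ using AddSubgroup.closure_induction with
  | mem χ hχ =>
    obtain ⟨n, ρ, -, rfl⟩ := hχ
    let ρ' : Representation ℂ G (Fin n → ℂ) :=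
      { toFun := fun g => ((μ g : ℂˣ) : ℂ) • ρ g
        map_one' := by rw [map_one, map_one]; simp
        map_mul' := fun g h => by
          rw [map_mul, map_mul, Units.val_mul, smul_mul_smul_comm] }
    have h : (fun g => ρ.character g * ((μ g : ℂˣ) : ℂ)) = ρ'.character := by
      funext g
      change LinearMap.trace ℂ _ (ρ g) * _ = LinearMap.trace ℂ _ (((μ g : ℂˣ) : ℂ) • ρ g)
      rw [map_smul, smul_eq_mul, mul_comm]
    rw [h]
    exact char_mem _ ρ' rfl
  | zero =>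
    have h : (fun g : G => (0 : G → ℂ) g * ((μ g : ℂˣ) : ℂ)) = 0 := by
      funext g; simp
    rw [h]
    exact zero_mem (AddSubgroup.closure (Irr G))
  | add a b _ _ ha hb =>
    have h : (fun g : G => (a + b) g * ((μ g : ℂˣ) : ℂ))
        = (fun g => a g * ((μ g : ℂˣ) : ℂ)) + fun g => b g * ((μ g : ℂˣ) : ℂ) := by
      funext g; simp [add_mul]
    rw [h]
    exact add_mem (S := AddSubgroup (G → ℂ)) ha hb
  | neg a _ ha =>
    have h : (fun g : G => (-a) g * ((μ g : ℂˣ) : ℂ)) = -fun g => a g * ((μ g : ℂˣ) : ℂ) := by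
      funext g; simp
    rw [h]
    exact neg_mem (S := AddSubgroup (G → ℂ)) ha

lemma virt_const (a : ℤ) : Virt (fun _ : G => (a : ℂ)) := by
  have h1 : (fun _ : G => (1 : ℂ)) ∈ Irr G := by
    have h := lin_irr (1 : G →* ℂˣ)
    simpa using h
  have h2 : (fun _ : G => (a : ℂ)) = a • (fun _ : G => (1 : ℂ)) := by
    funext g; simp
  rw [h2]
  exact zsmul_mem (AddSubgroup.subset_closure h1) a

/-- the mean value is an integer -/
lemma mean_int [Fintype G] {θ : G → ℂ} (hθ : Virt θ) : ∃ k : ℤ, ∑ g, θ g = k * Nat.card G := by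
  obtain ⟨k, hk⟩ := Virt.pr_int' hθ (virt_const (G := G) 1)
  refine ⟨k, ?_⟩
  rw [pr_eq] at hk
  simp only [Int.cast_one, mul_one] at hk
  rw [← hk, mul_comm, ← mul_assoc, mul_inv_cancel₀ card_ne, one_mul]

/-- the mean value of the square of the absolute value is an integer -/
lemma norm_int [Fintype G] {θ : G → ℂ} (hθ : Virt θ) :
    ∃ k : ℤ, ∑ g, ‖θ g‖ ^ 2 = k * Nat.card G := by
  obtain ⟨k, hk⟩ := Virt.pr_int' hθ hθ
  refine ⟨k, ?_⟩
  rw [pr_eq] at hk
  have h1 : ∑ g, θ g * θ g⁻¹ = k * Nat.card G := by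
    rw [← hk, mul_comm, ← mul_assoc, mul_inv_cancel₀ card_ne, one_mul]
  have h2 : ∀ g, θ g * θ g⁻¹ = ((‖θ g‖ ^ 2 : ℝ) : ℂ) := by
    intro g
    rw [virt_inv hθ, Complex.mul_conj, Complex.normSq_eq_norm_sq]
  rw [Finset.sum_congr rfl fun g _ => h2 g, ← Complex.ofReal_sum] at h1
  have h3 : ((∑ g, ‖θ g‖ ^ 2 : ℝ) : ℂ) = ((k * Nat.card G : ℝ) : ℂ) := by
    rw [h1]; push_cast; rfl
  exact_mod_cast h3

lemma virt_sub {a b : G → ℂ} (ha : Virt a) (hb : Virt b) : Virt (fun g => a g - b g) :=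
  sub_mem (S := AddSubgroup (G → ℂ)) ha hb

/-- the value at one is an integer -/
lemma virt_one {θ : G → ℂ} (hθ : Virt θ) : ∃ k : ℤ, θ 1 = k := by
  induction hθ using AddSubgroup.closure_induction with
  | mem χ hχ =>
    obtain ⟨d, -, hd⟩ := irr_deg_pos hχ
    exact ⟨d, by rw [hd]; simp⟩
  | zero => exact ⟨0, by simp⟩
  | add a b _ _ ha hb =>
    obtain ⟨k, hk⟩ := ha
    obtain ⟨l, hl⟩ := hb
    exact ⟨k + l, by rw [Pi.add_apply, hk, hl]; push_cast; rfl⟩
  | neg a _ ha =>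
    obtain ⟨k, hk⟩ := ha
    exact ⟨-k, by rw [Pi.neg_apply, hk]; push_cast; rfl⟩

end Pool.Agent.U143.AR
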